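import Pool.Agent.P.MP_2fa38d_an.Om

set_option autoImplicit false

open Metric Filter Topology MeasureTheory

namespace Pool.Agent.P.MP_2fa38d_an

lemma integrable_weight : Integrable (fun z : ℂ => ((1 + ‖z‖ ^ 2) ^ 2)⁻¹) := by
  have h := integrable_rpow_neg_one_add_norm_sq (E := ℂ) (μ := volume) (r := 4)
    (by rw [Complex.finrank_real_complex]; norm_num)
  refine h.congr (Eventually.of_forall fun z => ?_)
  have : (-4 / 2 : ℝ) = -((2 : ℕ) : ℝ) := by norm_num
  simp only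
  rw [this, Real.rpow_neg (by positivity), Real.rpow_natCast]

lemma inv_om_pow_succ (z : ℂ) (n : ℕ) : (om z ^ (n + 1))⁻¹ ≤ (om z ^ n)⁻¹ / 100 := by
  rw [le_div_iff₀ (by norm_num), inv_mul_eq_div, ← one_div,
    div_le_div_iff₀ (om_pow_pos _ _) (om_pow_pos _ _), one_mul]
  exact hundred_mul_om_pow z n

lemma inv_om_pow_pos (z : ℂ) (n : ℕ) : 0 < (om z ^ n)⁻¹ := inv_pos.2 (om_pow_pos z n)

lemma inv_om_pow_le_one (z : ℂ) (n : ℕ) : (om z ^ n)⁻¹ ≤ 1 :=
  inv_le_one_of_one_le₀ (one_le_om_pow z n)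

lemma inv_om_pow_anti (z : ℂ) {m n : ℕ} (h : m ≤ n) : (om z ^ n)⁻¹ ≤ (om z ^ m)⁻¹ :=
  inv_anti₀ (om_pow_pos z m) (om_pow_mono z h)

lemma inv_om_pow_shift {z w : ℂ} (h : ‖w - z‖ ≤ 2) (n : ℕ) :
    (om z ^ (2 * n))⁻¹ ≤ (om w ^ n)⁻¹ :=
  inv_anti₀ (om_pow_pos w n) (om_pow_shift h n)

lemma area {ι : Type*} (b : ι → ℂ) (N : ℕ)
    (hsep : ∀ i j, i ≠ j → (om (b i) ^ N)⁻¹ ≤ ‖b i - b j‖) :
    ∃ K : ℕ, Summable (fun i => (om (b i) ^ K)⁻¹) ∧ ∑' i, (om (b i) ^ K)⁻¹ ≤ 1 := by
  set w : ℂ → ℝ := fun z => ((1 + ‖z‖ ^ 2) ^ 2)⁻¹ with hw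
  have hw0 : ∀ z, 0 ≤ w z := fun z => by positivity
  let r : ι → ℝ := fun i => (om (b i) ^ (N + 1))⁻¹
  have hr0 : ∀ i, 0 < r i := fun i => inv_om_pow_pos _ _
  have hr1 : ∀ i, r i ≤ 1 := fun i => inv_om_pow_le_one _ _
  have hone : ∀ i, (om (b i) ^ (2 * N + 6))⁻¹ ≤ ∫ z in ball (b i) (r i), w z := by
    intro i
    have h1 : ∀ z ∈ ball (b i) (r i), (om (b i) ^ 4)⁻¹ ≤ w z := by
      intro z hz
      have h2 : om z ≤ om (b i) ^ 2 := om_shift (by linarith [mem_ball_iff_norm.1 hz, hr1 i])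
      have h3 := sq_le_om z
      refine inv_anti₀ (by positivity) ?_
      rw [show 4 = 2 * 2 by norm_num, pow_mul]
      refine pow_le_pow_left₀ (by positivity) ?_ 2
      nlinarith [sq_nonneg ‖z‖]
    have h2 := setIntegral_ge_of_const_le_real (μ := volume) measurableSet_ball
      measure_ball_lt_top.ne h1 integrable_weight.integrableOn
    refine le_trans ?_ h2
    have h3 : (volume : Measure ℂ).real (ball (b i) (r i)) = r i ^ 2 * Real.pi := by
      rw [Measure.real, Complex.volume_ball, ENNReal.toReal_mul, ENNReal.toReal_pow,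
        ENNReal.toReal_ofReal (hr0 i).le]
      simp
    rw [h3]
    have h4 : (om (b i) ^ (2 * N + 6))⁻¹ = (om (b i) ^ 4)⁻¹ * (r i ^ 2 * 1) := by
      simp only [r]
      have := om_pos (b i)
      field_simp
      ring
    rw [h4]
    have := Real.pi_gt_three
    have := inv_om_pow_pos (b i) 4
    gcongr
    linarith
  have hfin : ∀ s : Finset ι, ∑ i ∈ s, (om (b i) ^ (2 * N + 6))⁻¹ ≤ ∫ z, w z := by
    intro s
    calc ∑ i ∈ s, (om (b i) ^ (2 * N + 6))⁻¹ ≤ ∑ i ∈ s, ∫ z in ball (b i) (r i), w z :=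
          Finset.sum_le_sum fun i _ => hone i
      _ = ∫ z in ⋃ i ∈ s, ball (b i) (r i), w z := by
          refine (integral_biUnion_finset s (fun i _ => measurableSet_ball) ?_
            (fun i _ => integrable_weight.integrableOn)).symm
          intro i _ j _ hij
          refine ball_disjoint_ball ?_
          have h1 := hsep i j hij
          have h2 := hsep j i hij.symm
          rw [norm_sub_rev] at h2
          have h3 := inv_om_pow_succ (b i) N
          have h4 := inv_om_pow_succ (b j) N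
          have := norm_nonneg (b i - b j)
          rw [dist_eq_norm]
          simp only [r]
          linarith
      _ ≤ ∫ z, w z := setIntegral_le_integral integrable_weight (Eventually.of_forall hw0)
  obtain ⟨k, hk⟩ := pow_unbounded_of_one_lt (∫ z, w z) (show (1 : ℝ) < 100 by norm_num)
  have hfin' : ∀ s : Finset ι, ∑ i ∈ s, (om (b i) ^ (2 * N + 6 + k))⁻¹ ≤ 1 := by
    intro s
    calc ∑ i ∈ s, (om (b i) ^ (2 * N + 6 + k))⁻¹
        ≤ ∑ i ∈ s, (om (b i) ^ (2 * N + 6))⁻¹ * (100 ^ k)⁻¹ := by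
          refine Finset.sum_le_sum fun i _ => ?_
          rw [pow_add _ (2 * N + 6), mul_inv]
          refine mul_le_mul_of_nonneg_left ?_ (inv_om_pow_pos _ _).le
          exact inv_anti₀ (by positivity) (pow_le_pow_left₀ (by norm_num) (om_ge _) k)
      _ = (∑ i ∈ s, (om (b i) ^ (2 * N + 6))⁻¹) * (100 ^ k)⁻¹ := by rw [Finset.sum_mul]
      _ ≤ 100 ^ k * (100 ^ k)⁻¹ :=
          mul_le_mul_of_nonneg_right ((hfin s).trans hk.le) (by positivity)
      _ = 1 := mul_inv_cancel₀ (by positivity)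
  exact ⟨2 * N + 6 + k, summable_of_sum_le (fun i => (inv_om_pow_pos _ _).le) hfin',
    Real.tsum_le_of_sum_le (fun i => (inv_om_pow_pos _ _).le) hfin'⟩

lemma grid {R : ℝ} (hR : 1 ≤ R) : ∃ G : Finset ℂ, R ^ 2 ≤ G.card ∧ (G.card : ℝ) ≤ 25 * R ^ 2 ∧
    (∀ u ∈ G, ‖u‖ ≤ 2) ∧ (∀ u ∈ G, ∀ v ∈ G, u ≠ v → 1 / (2 * R) ≤ ‖u - v‖) ∧
    ∀ z : ℂ, ‖z‖ ≤ 1 → ∃ c ∈ G, ‖z - c‖ ≤ 1 / R := by
  classical
  set N : ℕ := ⌈R⌉₊ with hN
  have h1 : R ≤ N := Nat.le_ceil R
  have h2 : (N : ℝ) ≤ 2 * R := by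
    have := Nat.ceil_lt_add_one (show 0 ≤ R by linarith)
    linarith
  have hN0 : (0 : ℝ) < N := by linarith
  let φ : ℤ × ℤ → ℂ := fun q => ⟨q.1 / N, q.2 / N⟩
  have hsep : ∀ q q' : ℤ × ℤ, q ≠ q' → 1 / (N : ℝ) ≤ ‖φ q - φ q'‖ := by
    intro q q' h
    have key : ∀ m n : ℤ, m ≠ n → 1 / (N : ℝ) ≤ |(m : ℝ) / N - n / N| := by
      intro m n hmn
      rw [← sub_div, abs_div, abs_of_pos hN0]
      refine div_le_div_of_nonneg_right ?_ hN0.le
      have : (1 : ℤ) ≤ |m - n| := Int.one_le_abs (sub_ne_zero.2 hmn)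
      exact_mod_cast this
    by_cases hq : q.1 = q'.1
    · have hq2 : q.2 ≠ q'.2 := fun h2 => h (Prod.ext hq h2)
      exact (key _ _ hq2).trans (Complex.abs_im_le_norm (φ q - φ q'))
    · exact (key _ _ hq).trans (Complex.abs_re_le_norm (φ q - φ q'))
  have hinj : Function.Injective φ := by
    intro q q' h
    by_contra hne
    have := hsep q q' hne
    rw [h, sub_self, norm_zero] at this
    exact absurd this (not_le.2 (by positivity))
  let I : Finset ℤ := Finset.Icc (-(N : ℤ)) N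
  have hcard : (((I ×ˢ I).image φ).card : ℝ) = (2 * N + 1) ^ 2 := by
    rw [Finset.card_image_of_injective _ hinj, Finset.card_product]
    have : I.card = 2 * N + 1 := by
      simp only [I, Int.card_Icc]
      omega
    rw [this]
    push_cast
    ring
  have hI : ∀ m ∈ I, |(m : ℝ) / N| ≤ 1 := by
    intro m hm
    rw [abs_div, abs_of_pos hN0, div_le_one hN0]
    have : |m| ≤ (N : ℤ) := abs_le.2 (Finset.mem_Icc.1 hm)
    exact_mod_cast this
  have hround : ∀ x : ℝ, |x| ≤ 1 → ∃ m ∈ I, |x - m / N| ≤ 1 / (2 * N) := by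
    intro x hx
    refine ⟨round (x * N), ?_, ?_⟩
    · have h3 := abs_le.1 (abs_sub_round (x * N))
      have h4 := abs_le.1 hx
      have h5 : ((round (x * N) : ℤ) : ℝ) < N + 1 := by nlinarith
      have h6 : -(N : ℝ) - 1 < ((round (x * N) : ℤ) : ℝ) := by nlinarith
      have h7 : round (x * N) < (N : ℤ) + 1 := by exact_mod_cast h5
      have h8 : -(N : ℤ) - 1 < round (x * N) := by exact_mod_cast h6
      exact Finset.mem_Icc.2 ⟨by omega, by omega⟩
    · have h3 := abs_sub_round (x * N)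
      have : x - (round (x * N) : ℝ) / N = (x * N - round (x * N)) / N := by field_simp
      rw [this, abs_div, abs_of_pos hN0, div_le_div_iff₀ hN0 (by positivity)]
      nlinarith
  refine ⟨(I ×ˢ I).image φ, ?_, ?_, ?_, ?_, ?_⟩
  · rw [hcard]; nlinarith
  · rw [hcard]; nlinarith
  · intro u hu
    obtain ⟨q, hq, rfl⟩ := Finset.mem_image.1 hu
    have h3 := hI _ (Finset.mem_product.1 hq).1
    have h4 := hI _ (Finset.mem_product.1 hq).2
    have := Complex.norm_le_abs_re_add_abs_im (φ q)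
    simp only [φ] at this ⊢
    linarith
  · intro u hu v hv huv
    obtain ⟨q, hq, rfl⟩ := Finset.mem_image.1 hu
    obtain ⟨q', hq', rfl⟩ := Finset.mem_image.1 hv
    refine le_trans ?_ (hsep q q' (fun h => huv (by rw [h])))
    exact one_div_le_one_div_of_le hN0 h2
  · intro z hz
    obtain ⟨m, hm, hm'⟩ := hround z.re ((Complex.abs_re_le_norm z).trans hz)
    obtain ⟨n, hn, hn'⟩ := hround z.im ((Complex.abs_im_le_norm z).trans hz)
    refine ⟨φ (m, n), Finset.mem_image_of_mem _ (Finset.mem_product.2 ⟨hm, hn⟩), ?_⟩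
    have h3 := Complex.norm_le_abs_re_add_abs_im (z - φ (m, n))
    simp only [φ, Complex.sub_re, Complex.sub_im] at h3
    have h4 : 1 / (2 * (N : ℝ)) + 1 / (2 * N) = 1 / N := by field_simp; norm_num
    have h5 : 1 / (N : ℝ) ≤ 1 / R := one_div_le_one_div_of_le (by linarith) h1
    simp only [φ]
    linarith

lemma union_bound {ι : Type*} [DecidableEq ι] (T : ι → Finset ℂ) (hT : ∀ i, (T i).Nonempty)
    (b : ι → ℝ) (S : Finset ι) : ∀ φ : ι → (ι → ℂ) → ℝ,
    (∀ i ∈ S, ∀ x : ι → ℂ, (∀ j, x j ∈ T j) →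
      ∑ u ∈ T i, φ i (Function.update x i u) ≤ b i * (T i).card) →
    ∃ x : ι → ℂ, (∀ j, x j ∈ T j) ∧ ∑ i ∈ S, φ i x ≤ ∑ i ∈ S, b i := by
  have hup : ∀ (x : ι → ℂ) (i : ι) (u : ℂ), (∀ j, x j ∈ T j) → u ∈ T i →
      ∀ j, Function.update x i u j ∈ T j := by
    intro x i u hx hu j
    by_cases h : j = i
    · subst h; simpa using hu
    · simpa [h] using hx j
  induction S using Finset.induction_on with
  | empty => exact fun φ _ => ⟨fun j => (hT j).choose, fun j => (hT j).choose_spec, by simp⟩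
  | insert j S hj ih =>
    intro φ hφ
    have hc : (0 : ℝ) < (T j).card := by exact_mod_cast (hT j).card_pos
    obtain ⟨x, hx, hs⟩ := ih (fun i x => (∑ v ∈ T j, φ i (Function.update x j v)) / (T j).card)
      (by
        intro i hi x hx
        have hij : i ≠ j := fun h => hj (h ▸ hi)
        rw [← Finset.sum_div, div_le_iff₀ hc, Finset.sum_comm]
        calc ∑ v ∈ T j, ∑ u ∈ T i, φ i (Function.update (Function.update x i u) j v)
            ≤ ∑ v ∈ T j, b i * (T i).card := by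
              refine Finset.sum_le_sum fun v hv => ?_
              simp only [Function.update_comm hij]
              exact hφ i (Finset.mem_insert_of_mem hi) _ (hup x j v hx hv)
          _ = _ := by rw [Finset.sum_const, nsmul_eq_mul, mul_comm])
    have h1 := hφ j (Finset.mem_insert_self j S) x hx
    rw [← Finset.sum_div, div_le_iff₀ hc] at hs
    have h2 : ∑ v ∈ T j, ∑ i ∈ insert j S, φ i (Function.update x j v) ≤
        ∑ v ∈ T j, ∑ i ∈ insert j S, b i := by
      rw [Finset.sum_comm, Finset.sum_insert hj, Finset.sum_const, nsmul_eq_mul,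
        Finset.sum_insert hj]
      nlinarith
    obtain ⟨v, hv, hle⟩ := Finset.exists_le_of_sum_le (hT j) h2
    exact ⟨_, hup x j v hx hv, hle⟩

lemma exists_good {ι : Type*} [DecidableEq ι] (T : ι → Finset ℂ) (hT : ∀ i, (T i).Nonempty)
    (b : ι → ℝ) (hb : ∀ S : Finset ι, ∑ i ∈ S, b i < 1) (Good : ι → (ι → ℂ) → Prop)
    (hcl : ∀ i, IsClosed {x : ι → ℂ | (∀ j, x j ∈ T j) ∧ Good i x})
    (hfib : ∀ i, ∀ x : ι → ℂ, (∀ j, x j ∈ T j) → ∃ B : Finset ℂ, (B.card : ℝ) ≤ b i * (T i).card ∧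
      ∀ u ∈ T i, ¬ Good i (Function.update x i u) → u ∈ B) :
    ∃ x : ι → ℂ, (∀ j, x j ∈ T j) ∧ ∀ i, Good i x := by
  classical
  have hK : IsCompact (Set.pi Set.univ fun j => (T j : Set ℂ)) :=
    isCompact_univ_pi fun j => (T j).finite_toSet.isCompact
  obtain ⟨x, hx1, hx2⟩ := hK.inter_iInter_nonempty _ hcl (fun S => by
    obtain ⟨x, hx, hs⟩ := union_bound T hT b S (fun i x => if Good i x then 0 else 1) (by
      intro i _ x hx
      obtain ⟨B, hB, hB'⟩ := hfib i x hx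
      refine le_trans ?_ hB
      rw [Finset.sum_ite]
      simp only [Finset.sum_const_zero, zero_add, Finset.sum_const, nsmul_eq_mul, mul_one]
      refine Nat.cast_le.2 (Finset.card_le_card fun u hu => ?_)
      rw [Finset.mem_filter] at hu
      exact hB' u hu.1 hu.2)
    refine ⟨x, fun j _ => hx j, ?_⟩
    simp only [Set.mem_iInter, Set.mem_ofPred_eq]
    intro i hi
    refine ⟨hx, ?_⟩
    by_contra hg
    have h1 := Finset.single_le_sum (f := fun i => if Good i x then (0 : ℝ) else 1)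
      (fun i _ => by split_ifs <;> norm_num) hi
    simp only [hg, if_false] at h1
    linarith [hb S])
  exact ⟨x, fun j => hx1 j (Set.mem_univ j), fun i => (Set.mem_iInter.1 hx2 i).2⟩

end Pool.Agent.P.MP_2fa38d_an
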