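import Pool.Agent.P.MP_2fa38d_an.Van

set_option autoImplicit false

open Metric Filter Topology Asymptotics

namespace Pool.Agent.P.MP_2fa38d_an

/-- the normalised derivative -/
noncomputable def J (g : ℂ → ℂ) (a : ℂ) (κ : ℕ) : ℂ := iteratedDeriv κ g a / (κ.factorial : ℂ)

lemma J_sub {g h : ℂ → ℂ} (hg : Differentiable ℂ g) (hh : Differentiable ℂ h) (a : ℂ) (κ : ℕ) :
    J (fun z => g z - h z) a κ = J g a κ - J h a κ := by
  unfold J
  rw [iteratedDeriv_fun_sub (hg.analyticAt a).contDiffAt (hh.analyticAt a).contDiffAt, sub_div]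

lemma J_le {g : ℂ → ℂ} {a : ℂ} {M : ℝ} (hg : DiffContOnCl ℂ g (ball a 1))
    (hM : ∀ z ∈ sphere a 1, ‖g z‖ ≤ M) (κ : ℕ) : ‖J g a κ‖ ≤ M := by
  have := Complex.norm_iteratedDeriv_le_of_forall_mem_sphere_norm_le κ one_pos hg hM
  unfold J
  rw [norm_div, Complex.norm_natCast, div_le_iff₀ (by exact_mod_cast κ.factorial_pos)]
  simpa [mul_comm] using this

lemma Bd.lip {N : ℕ} {g : ℂ → ℂ} (hg : Bd 1 N g) {z w : ℂ} (hw : ‖w - z‖ ≤ 1) :
    ‖g w - g z‖ ≤ 2 * om z ^ (2 * N) * ‖w - z‖ := by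
  have h1 := (van_one (h := fun w => g w - g z) (a := z) (hg.1.sub_const _) (by simp)).schwarz
    (hg.1.sub_const _) (M := 2 * om z ^ (2 * N)) (fun w hw => by
      have h2 := hg.near (z := z) (w := w) (by rw [mem_sphere_iff_norm.1 hw]; norm_num)
      have h3 := hg.near (z := z) (w := z) (by simp)
      linarith [norm_sub_le (g w) (g z)]) hw
  simpa using h1

lemma montel {ι : Type*} (U : Ultrafilter ι) {N : ℕ} (g : ι → ℂ → ℂ) (hg : ∀ i, Bd 1 N (g i)) :
    ∃ G, Bd 1 N G ∧ ∀ a κ, Tendsto (fun i => J (g i) a κ) U (𝓝 (J G a κ)) := by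
  have h1 : ∀ z, ∃ x ∈ closedBall (0 : ℂ) (1 * om z ^ N), Tendsto (fun i => g i z) U (𝓝 x) :=
    fun z => (isCompact_closedBall _ _).ultrafilter_le_nhds' (U.map fun i => g i z)
      (Ultrafilter.mem_map.2 (univ_mem' fun i => by simpa using (hg i).2 z))
  choose G hG hlim using h1
  have hlu : TendstoLocallyUniformlyOn g G U Set.univ := by
    rw [tendstoLocallyUniformlyOn_univ, Metric.tendstoLocallyUniformly_iff]
    intro ε hε x
    set L := 2 * om x ^ (2 * N) with hL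
    have hL0 : 0 < L := by have := om_pow_pos x (2 * N); positivity
    refine ⟨closedBall x (min 1 (ε / (4 * L))), closedBall_mem_nhds _ (by positivity), ?_⟩
    filter_upwards [(hlim x).eventually (ball_mem_nhds (G x) (half_pos hε))] with i hi y hy
    rw [mem_closedBall_iff_norm, le_min_iff] at hy
    have h2 : L * ‖y - x‖ ≤ ε / 4 := by
      calc L * ‖y - x‖ ≤ L * (ε / (4 * L)) := mul_le_mul_of_nonneg_left hy.2 hL0.le
        _ = ε / 4 := by field_simp
    have h3 := (hg i).lip hy.1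
    have h4 : ‖G y - G x‖ ≤ L * ‖y - x‖ :=
      le_of_tendsto' ((hlim y).sub (hlim x)).norm (fun j => (hg j).lip hy.1)
    rw [dist_eq_norm] at hi ⊢
    have e : G y - g i y = (G y - G x) - (g i x - G x) - (g i y - g i x) := by ring
    rw [e]
    linarith [norm_sub_le ((G y - G x) - (g i x - G x)) (g i y - g i x),
      norm_sub_le (G y - G x) (g i x - G x)]
  have hd : Differentiable ℂ G := differentiableOn_univ.1
    (hlu.differentiableOn (Eventually.of_forall fun i => (hg i).1.differentiableOn) isOpen_univ)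
  have hit : ∀ κ, TendstoLocallyUniformlyOn (fun i => iteratedDeriv κ (g i)) (iteratedDeriv κ G) U
      Set.univ := by
    intro κ
    induction κ with
    | zero => simpa using hlu
    | succ κ ih =>
      simp only [iteratedDeriv_succ]
      exact ih.deriv (Eventually.of_forall fun i =>
        (((hg i).1.contDiff (n := ⊤)).differentiable_iteratedDeriv κ (by simp)).differentiableOn)
        isOpen_univ
  exact ⟨G, ⟨hd, fun z => by simpa using hG z⟩,
    fun a κ => ((hit κ).tendsto_at (Set.mem_univ a)).div_const _⟩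

/-- arrays of zeros and ones are interpolated -/
def HB (a : ℕ → ℂ) (p : ℕ → ℕ) : Prop :=
  ∀ lam : ℕ → ℕ → ℂ, (∀ n κ, lam n κ = 0 ∨ lam n κ = 1) →
    ∃ g : ℂ → ℂ, EE g ∧ ∀ n, ∀ κ < p n, J g (a n) κ = lam n κ

/-- single jets with a uniform bound -/
def SJ (a : ℕ → ℂ) (p : ℕ → ℕ) (N : ℕ) : Prop :=
  ∀ n k, k < p n → ∃ g, Bd 1 N g ∧
    Van (fun z => g z - (z - a n) ^ k) (a n) (p n) ∧ ∀ m, m ≠ n → Van g (a m) (p m)

/-- uniform interpolation -/
def IP (a : ℕ → ℂ) (p : ℕ → ℕ) (N : ℕ) : Prop :=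
  ∀ t > (0:ℝ), ∀ lam : ℕ → ℕ → ℂ, (∀ n, ∀ κ < p n, ‖lam n κ‖ ≤ t) →
    ∃ g, Bd t N g ∧ ∀ n, Van (fun z => g z - jp (lam n) (p n) (a n) z) (a n) (p n)

lemma HB.sj {a : ℕ → ℂ} {p : ℕ → ℕ} (H : HB a p) : ∃ N, SJ a p N := by
  classical
  let v : Bool → ℂ := fun b => if b = true then 1 else 0
  let S : ℕ → Set (ℕ × ℕ → Bool) := fun m =>
    {x | ∃ g, Bd 1 m g ∧ ∀ n, ∀ κ < p n, J g (a n) κ = v (x (n, κ))}
  have hmem : ∀ x, ∃ m, x ∈ S m := by
    intro x
    obtain ⟨g, hg, hJ⟩ := H (fun n κ => v (x (n, κ))) (fun n κ => by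
      simp only [v]; split_ifs <;> simp)
    obtain ⟨m, hm⟩ := hg.bd
    exact ⟨m, g, hm, hJ⟩
  have hcl : ∀ m, IsClosed (S m) := by
    intro m
    rw [isClosed_iff_ultrafilter]
    intro x U hU hS
    have h1 : ∀ y, ∃ g, Bd 1 m g ∧ (y ∈ S m → ∀ n, ∀ κ < p n, J g (a n) κ = v (y (n, κ))) := by
      intro y
      by_cases hy : y ∈ S m
      · obtain ⟨g, hg, hJ⟩ := hy
        exact ⟨g, hg, fun _ => hJ⟩
      · exact ⟨fun _ => 0, (bd_const 0).mono (by simp) zero_le_one (Nat.zero_le _),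
          fun h => absurd h hy⟩
    choose g hg hJ using h1
    obtain ⟨G, hG, hlim⟩ := montel U g hg
    refine ⟨G, hG, fun n κ hκ => tendsto_nhds_unique (hlim (a n) κ) ?_⟩
    refine tendsto_const_nhds.congr' ?_
    have h2 : ∀ᶠ y in 𝓝 x, y (n, κ) = x (n, κ) :=
      (continuous_apply (n, κ)).continuousAt.eventually
        (isOpen_discrete {x (n, κ)} |>.mem_nhds rfl)
    filter_upwards [hU h2, hS] with y h3 h4
    rw [hJ y h4 n κ hκ, h3]
  obtain ⟨m, x0, hx0⟩ := nonempty_interior_of_iUnion_of_closed hcl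
    (Set.eq_univ_iff_forall.2 fun x => Set.mem_iUnion.2 (hmem x))
  rw [mem_interior_iff_mem_nhds, nhds_pi] at hx0
  simp only [nhds_discrete] at hx0
  obtain ⟨I, hI, hIS⟩ := mem_pi_pure.1 hx0
  choose M hM using hmem
  obtain ⟨B, hB⟩ := (hI.image fun q => M fun q' => decide (q' = q)).bddAbove
  refine ⟨m + 1 + B, fun n k hk => ?_⟩
  have key : ∃ g, Bd 1 (m + 1 + B) g ∧ ∀ n', ∀ κ < p n', J g (a n') κ =
      if n' = n ∧ κ = k then 1 else 0 := by
    by_cases hq : (n, k) ∈ I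
    · obtain ⟨g, hg, hJ⟩ := hM fun q' => decide (q' = (n, k))
      refine ⟨g, hg.mono le_rfl zero_le_one ((hB ⟨_, hq, rfl⟩).trans (Nat.le_add_left _ _)),
        fun n' κ hκ => ?_⟩
      rw [hJ n' κ hκ]
      simp [v]
    · have hup : ∀ b, ∀ i ∈ I, Function.update x0 (n, k) b i = x0 i := fun b i hi =>
        Function.update_of_ne (fun h : i = (n, k) => hq (h ▸ hi)) _ _
      obtain ⟨g1, hg1, hJ1⟩ := hIS _ (hup true)
      obtain ⟨g0, hg0, hJ0⟩ := hIS _ (hup false)
      refine ⟨fun z => g1 z - g0 z, ((hg1.sub hg0).absorb (by norm_num)).mono le_rfl zero_le_one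
        (Nat.le_add_right _ _), fun n' κ hκ => ?_⟩
      rw [J_sub hg1.1 hg0.1, hJ1 n' κ hκ, hJ0 n' κ hκ]
      by_cases h : (n', κ) = (n, k)
      · rw [h, Function.update_self, Function.update_self, if_pos (by simpa using h)]
        simp [v]
      · rw [Function.update_of_ne h, Function.update_of_ne h, if_neg (by simpa using h), sub_self]
  obtain ⟨g, hg, hJ⟩ := key
  have hv := fun n' => (jets_iff (hg.1.analyticAt (a n')) _ _).1 (hJ n')
  refine ⟨g, hg, (hv n).congr' fun z => ?_, fun m hm => (hv m).congr' fun z => ?_⟩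
  · simp [jp, hk]
  · simp [jp, hm]

end Pool.Agent.P.MP_2fa38d_an
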