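import Pool.Agent.P.MP_2fa38d_an.Van
import Pool.Agent.P.MP_2fa38d_an.Area

set_option autoImplicit false

open Metric Filter Topology

namespace Pool.Agent.P.MP_2fa38d_an

lemma select {ι : Type} (b : ι → ℂ) {K N A B : ℕ} (hK : Summable (fun i => (om (b i) ^ K)⁻¹))
    (hK' : ∑' i, (om (b i) ^ K)⁻¹ ≤ 1) {f0 : ℂ → ℂ} (H : ι → ℂ → ℂ)
    (hH : ∀ i, Bd (om (b i) ^ A) N (H i))
    (hlow : ∀ i z, ‖z - b i‖ ≤ (om (b i) ^ B)⁻¹ → 1 / 4 ≤ ‖H i z‖) (n : ℕ) (C : ι → Finset ℂ)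
    (hC : ∀ i, ((C i).card : ℝ) ≤ 25 * (om (b i) ^ n) ^ 2) :
    ∃ t : ι → ℂ, (∀ i, Bd ((om (b i) ^ K)⁻¹) N (fun z => t i * H i z)) ∧
      ∀ i, ∀ γ ∈ C i, ‖γ‖ ≤ (om (b i) ^ B)⁻¹ →
        (om (b i) ^ (2 * K + A + n + 3))⁻¹ ≤ ‖f0 (b i + γ) + ∑' j, t j * H j (b i + γ)‖ := by
  classical
  choose T hT1 hT2 hT3 hT4 hT5 using fun i => grid (one_le_om_pow (b i) (n + K + 1))
  have hTne : ∀ i, (T i).Nonempty := fun i => by
    obtain ⟨c, hc, -⟩ := hT5 i 0 (by simp)
    exact ⟨c, hc⟩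
  let s : ι → ℂ := fun i => (((om (b i) ^ (K + A + 1))⁻¹ : ℝ) : ℂ)
  have hs : ∀ i, ‖s i‖ = (om (b i) ^ (K + A + 1))⁻¹ := fun i => by
    simp only [s]
    rw [Complex.norm_real, Real.norm_of_nonneg (inv_om_pow_pos _ _).le]
  have hBd : ∀ x : ι → ℂ, (∀ j, x j ∈ T j) →
      ∀ i, Bd ((om (b i) ^ K)⁻¹) N (fun z => x i * s i * H i z) := by
    intro x hx i
    refine ((hH i).const_mul (x i * s i)).mono ?_ (inv_om_pow_pos _ _).le le_rfl
    rw [norm_mul, hs]
    have h1 := hT3 i _ (hx i)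
    have h2 := inv_om_pow_succ (b i) (K + A)
    have h3 : (om (b i) ^ (K + A))⁻¹ * om (b i) ^ A = (om (b i) ^ K)⁻¹ := by
      have := om_pos (b i)
      rw [pow_add]; field_simp
    have h4 := om_pow_pos (b i) A
    have h5 := inv_om_pow_pos (b i) (K + A + 1)
    have h6 : ‖x i‖ * (om (b i) ^ (K + A + 1))⁻¹ ≤ (om (b i) ^ (K + A))⁻¹ := by nlinarith
    rw [← h3]
    exact mul_le_mul_of_nonneg_right h6 h4.le
  let Good : ι → (ι → ℂ) → Prop := fun i x => ∀ γ ∈ C i, ‖γ‖ ≤ (om (b i) ^ B)⁻¹ →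
    (om (b i) ^ (2 * K + A + n + 3))⁻¹ ≤ ‖f0 (b i + γ) + ∑' j, x j * s j * H j (b i + γ)‖
  obtain ⟨x, hx, hgood⟩ := exists_good T hTne (fun i => (om (b i) ^ K)⁻¹ / 2) (fun S => by
      rw [← Finset.sum_div]
      have := hK.sum_le_tsum S (fun i _ => (inv_om_pow_pos _ _).le)
      linarith) Good (fun i => by
      have hS0 : IsClosed {x : ι → ℂ | ∀ j, x j ∈ T j} := by
        have : {x : ι → ℂ | ∀ j, x j ∈ T j} = Set.pi Set.univ fun j => (T j : Set ℂ) := by
          ext x; simp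
        rw [this]
        exact isClosed_set_pi fun j _ => (T j).finite_toSet.isClosed
      have hcont : ∀ c : ℂ, ContinuousOn (fun x : ι → ℂ => ‖f0 c + ∑' j, x j * s j * H j c‖)
          {x : ι → ℂ | ∀ j, x j ∈ T j} := by
        intro c
        refine (continuousOn_const.add (continuousOn_tsum (fun j => by fun_prop)
          (hK.mul_right (om c ^ N)) (fun j x hx => (hBd x hx j).2 c))).norm
      have : {x : ι → ℂ | (∀ j, x j ∈ T j) ∧ Good i x} = {x : ι → ℂ | ∀ j, x j ∈ T j} ∩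
          ⋂ γ ∈ {γ | γ ∈ C i ∧ ‖γ‖ ≤ (om (b i) ^ B)⁻¹}, ({x : ι → ℂ | ∀ j, x j ∈ T j} ∩
            (fun x : ι → ℂ => ‖f0 (b i + γ) + ∑' j, x j * s j * H j (b i + γ)‖) ⁻¹'
              Set.Ici (om (b i) ^ (2 * K + A + n + 3))⁻¹) := by
        ext x
        simp only [Good, Set.mem_ofPred_eq, Set.mem_inter_iff, Set.mem_iInter, Set.mem_preimage,
          Set.mem_Ici]
        exact ⟨fun h => ⟨h.1, fun γ hγ => ⟨h.1, h.2 γ hγ.1 hγ.2⟩⟩,
          fun h => ⟨h.1, fun γ h1 h2 => (h.2 γ ⟨h1, h2⟩).2⟩⟩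
      rw [this]
      exact hS0.inter (isClosed_biInter fun γ _ =>
        (hcont _).preimage_isClosed_of_isClosed hS0 isClosed_Ici)) (fun i x hx => by
      refine ⟨(C i).biUnion fun γ => (T i).filter fun u => ‖γ‖ ≤ (om (b i) ^ B)⁻¹ ∧
        ‖f0 (b i + γ) + ∑' j, Function.update x i u j * s j * H j (b i + γ)‖ <
          (om (b i) ^ (2 * K + A + n + 3))⁻¹, ?_, fun u hu hbad => ?_⟩
      · have h1 : ∀ γ ∈ C i, ((T i).filter fun u => ‖γ‖ ≤ (om (b i) ^ B)⁻¹ ∧
            ‖f0 (b i + γ) + ∑' j, Function.update x i u j * s j * H j (b i + γ)‖ <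
              (om (b i) ^ (2 * K + A + n + 3))⁻¹).card ≤ 1 := by
          intro γ _
          rw [Finset.card_le_one]
          intro u hu v hv
          rw [Finset.mem_filter] at hu hv
          by_contra huv
          have hup : ∀ u ∈ T i, ∀ j, Function.update x i u j ∈ T j := by
            intro u hu j
            by_cases h : j = i
            · subst h; simpa using hu
            · simpa [h] using hx j
          have e : (f0 (b i + γ) + ∑' j, Function.update x i u j * s j * H j (b i + γ)) -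
              (f0 (b i + γ) + ∑' j, Function.update x i v j * s j * H j (b i + γ)) =
              (u - v) * s i * H i (b i + γ) := by
            rw [add_sub_add_left_eq_sub, ← (Bd.summable (hBd _ (hup u hu.1)) hK _).tsum_sub
              (Bd.summable (hBd _ (hup v hv.1)) hK _), tsum_eq_single i]
            · simp only [Function.update_self]; ring
            · intro j hj
              simp [hj]
          have h2 := norm_sub_le (f0 (b i + γ) + ∑' j, Function.update x i u j * s j * H j (b i + γ))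
            (f0 (b i + γ) + ∑' j, Function.update x i v j * s j * H j (b i + γ))
          rw [e, norm_mul, norm_mul, hs] at h2
          have h3 := hT4 i u hu.1 v hv.1 huv
          have h4 := hlow i (b i + γ) (by simpa using hu.2.1)
          have h5 := inv_om_pow_succ (b i) (2 * K + A + n + 2)
          have h6 : (om (b i) ^ (2 * K + A + n + 2))⁻¹ / 8 =
              1 / (2 * om (b i) ^ (n + K + 1)) * (om (b i) ^ (K + A + 1))⁻¹ * (1 / 4) := by
            have := om_pos (b i)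
            field_simp
            ring
          have h7 : 1 / (2 * om (b i) ^ (n + K + 1)) * (om (b i) ^ (K + A + 1))⁻¹ * (1 / 4) ≤
              ‖u - v‖ * (om (b i) ^ (K + A + 1))⁻¹ * ‖H i (b i + γ)‖ := by
            have := inv_om_pow_pos (b i) (K + A + 1)
            gcongr
          have h8 := inv_om_pow_pos (b i) (2 * K + A + n + 2)
          linarith [hu.2.2, hv.2.2]
        have h2 := Finset.card_biUnion_le_card_mul _ _ _ h1
        rw [mul_one] at h2
        refine (Nat.cast_le.2 h2).trans ((hC i).trans ?_)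
        refine le_trans ?_ (mul_le_mul_of_nonneg_left (hT1 i) (by
          have := inv_om_pow_pos (b i) K
          positivity))
        have h3 : (om (b i) ^ K)⁻¹ / 2 * (om (b i) ^ (n + K + 1)) ^ 2 =
            (om (b i) ^ n) ^ 2 * om (b i) ^ (K + 1 + 1) / 2 := by
          have := om_pos (b i)
          field_simp
          ring
        rw [h3]
        have h4 := hundred_mul_om_pow (b i) (K + 1)
        have h5 := one_le_om_pow (b i) (K + 1)
        have h6 : 0 < (om (b i) ^ n) ^ 2 := pow_pos (om_pow_pos _ _) 2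
        nlinarith
      · simp only [Good, not_forall, not_le] at hbad
        obtain ⟨γ, h1, h2, h3⟩ := hbad
        exact Finset.mem_biUnion.2 ⟨γ, h1, Finset.mem_filter.2 ⟨hu, h2, h3⟩⟩)
  exact ⟨fun i => x i * s i, hBd x hx, hgood⟩

lemma perturb {f0 : ℂ → ℂ} {N : ℕ} (hf0 : Bd 1 N f0) (Ω : Set ℂ) (A B : ℕ) (H : ℂ → ℂ → ℂ)
    (hH : ∀ w ∈ Ω, Bd (om w ^ A) N (H w))
    (hlow : ∀ w ∈ Ω, ∀ z, ‖z - w‖ ≤ (om w ^ B)⁻¹ → 1 / 4 ≤ ‖H w z‖) :
    ∃ g, Bd 1 N g ∧ (∀ a p, (∀ w ∈ Ω, Van (H w) a p) → Van g a p) ∧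
      ∃ M : ℕ, ∀ z ∈ Ω, (om z ^ M)⁻¹ ≤ ‖f0 z + g z‖ + ‖deriv (fun z => f0 z + g z) z‖ := by
  obtain ⟨W, hWΩ, hWd, hWc⟩ := Vitali.exists_disjoint_subfamily_covering_enlargement_closedBall
    Ω id (fun w => (om w ^ (B + 1))⁻¹) 1 (fun w _ => inv_om_pow_le_one _ _) 5 (by norm_num)
  obtain ⟨K, hK, hK'⟩ := area (fun w : W => (w : ℂ)) (B + 1) (fun i j hij => by
    have h1 := hWd i.2 j.2 (fun h => hij (Subtype.ext h))
    by_contra hlt
    rw [not_le, norm_sub_rev] at hlt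
    exact Set.disjoint_left.1 h1 (mem_closedBall_iff_norm.2 hlt.le)
      (mem_closedBall_self (inv_om_pow_pos _ _).le))
  set n := 4 * N + 2 * K + A + B + 10 with hn
  choose C hC1 hC2 hC3 hC4 hC5 using fun w : W => grid (one_le_om_pow (w : ℂ) n)
  obtain ⟨t, ht, hgood⟩ := select (fun w : W => (w : ℂ)) (f0 := f0) hK hK' (fun w => H w)
    (fun w => hH w (hWΩ w.2)) (fun w => hlow w (hWΩ w.2)) n C hC2
  have hg : Bd 1 N (fun z => ∑' w : W, t w * H w z) := (Bd.tsum ht hK).mono hK' zero_le_one le_rfl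
  refine ⟨_, hg, fun a p hv => van_tsum ht hK
    (fun w => (hv w (hWΩ w.2)).cont_mul continuousAt_const),
    2 * (2 * K + A + n + 3 + 1), fun z hz => ?_⟩
  set f : ℂ → ℂ := fun z => f0 z + ∑' w : W, t w * H w z with hf
  have hfb : Bd 1 (N + 1) f := (hf0.add hg).absorb (by norm_num)
  obtain ⟨w, hw, hzw⟩ := hWc z hz
  have h1 : ‖z - w‖ ≤ 5 * (om w ^ (B + 1))⁻¹ :=
    mem_closedBall_iff_norm.1 (hzw (mem_closedBall_self (inv_om_pow_pos _ _).le))
  have h2 := inv_om_pow_succ w B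
  have h3 := inv_om_pow_le_one w B
  have h3' := inv_om_pow_pos w B
  obtain ⟨γ, hγ, hγ'⟩ := hC5 ⟨w, hw⟩ (z - w) (by linarith)
  rw [one_div] at hγ'
  have h4 : (om w ^ n)⁻¹ ≤ (om w ^ (B + 1))⁻¹ := inv_om_pow_anti w (by omega)
  have h5 : ‖γ‖ ≤ (om w ^ B)⁻¹ := by
    have : γ = (z - w) - (z - w - γ) := by ring
    have h := norm_sub_le (z - w) (z - w - γ)
    rw [← this] at h
    simp only at hγ'
    linarith
  have h6 := hgood ⟨w, hw⟩ γ hγ h5
  have h7 : ‖w + γ - z‖ ≤ (om w ^ n)⁻¹ := by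
    rw [norm_sub_rev, ← sub_sub]
    exact hγ'
  have h8 := inv_om_pow_le_one w n
  have h9 := hfb.taylor (z := z) (w := w + γ) (by linarith)
  have h10 : om z ^ (2 * (N + 1) + 1) * ‖w + γ - z‖ ^ 2 ≤ (om w ^ (2 * K + A + n + 3 + 1))⁻¹ := by
    calc om z ^ (2 * (N + 1) + 1) * ‖w + γ - z‖ ^ 2
        ≤ om w ^ (2 * (2 * (N + 1) + 1)) * ((om w ^ n)⁻¹) ^ 2 := by
          refine mul_le_mul (om_pow_shift (by linarith) _) ?_ (by positivity) (om_pow_pos _ _).le
          exact pow_le_pow_left₀ (norm_nonneg _) h7 2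
      _ = (om w ^ (2 * K + A + n + 3 + 1 + B))⁻¹ := by
          have := om_pos w
          field_simp
          rw [hn]
          ring
      _ ≤ _ := inv_om_pow_anti w (by omega)
  have h11 := inv_om_pow_succ w (2 * K + A + n + 3)
  have h12 : (om z ^ (2 * (2 * K + A + n + 3 + 1)))⁻¹ ≤ (om w ^ (2 * K + A + n + 3 + 1))⁻¹ :=
    inv_om_pow_shift (by rw [norm_sub_rev]; linarith) _
  have h13 : ‖deriv f z * (w + γ - z)‖ ≤ ‖deriv f z‖ := by
    rw [norm_mul]
    exact mul_le_of_le_one_right (norm_nonneg _) (by linarith)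
  have h14 : ‖f (w + γ)‖ ≤ ‖f (w + γ) - f z - deriv f z * (w + γ - z)‖ + ‖f z‖ +
      ‖deriv f z * (w + γ - z)‖ := by
    have e : f (w + γ) = (f (w + γ) - f z - deriv f z * (w + γ - z)) + f z +
      deriv f z * (w + γ - z) := by ring
    conv_lhs => rw [e]
    exact norm_add₃_le
  have h15 := inv_om_pow_pos w (2 * K + A + n + 3)
  change _ ≤ ‖f (w + γ)‖ at h6
  change _ ≤ ‖f z‖ + ‖deriv f z‖
  simp only at h6
  linarith

end Pool.Agent.P.MP_2fa38d_an
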