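import Pool.Agent.P.MP_2fa38d_an.F0
import Pool.Agent.P.MP_2fa38d_an.Pert

set_option autoImplicit false

open Metric Filter Topology

namespace Pool.Agent.P.MP_2fa38d_an

variable {a : ℕ → ℂ} {p : ℕ → ℕ} {N0 : ℕ}

lemma geom_jp {a w : ℂ} (hw : w - a ≠ 0) (z : ℂ) (p : ℕ) :
    1 + (z - w) * jp (fun κ => ((w - a) ^ (κ + 1))⁻¹) p a z = ((w - a) ^ p)⁻¹ * (z - a) ^ p := by
  unfold jp
  induction p with
  | zero => simp
  | succ p ih =>
    rw [Finset.sum_range_succ, mul_add, ← add_assoc, ih]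
    field_simp
    ring

lemma IP.peak (H : IP a p N0) (hp : ∀ n, 1 ≤ p n) (N2 : ℕ) (w : ℂ)
    (hw : ∀ n, (om (a n) ^ N2)⁻¹ ≤ ‖w - a n‖ ^ ((p n + 1) / 2)) :
    ∃ h, Bd (om w ^ (4 * N2 + 2)) (N0 + 1) h ∧ (∀ n, Van h (a n) (p n)) ∧
      ∀ z, ‖z - w‖ ≤ (om w ^ (4 * N2 + 2 * N0 + 1))⁻¹ → 1 / 2 ≤ ‖h z‖ := by
  have hne : ∀ n, w - a n ≠ 0 := by
    intro n h
    have h1 := hw n
    have := hp n
    rw [h, norm_zero, zero_pow (by omega)] at h1
    exact absurd h1 (not_le.2 (inv_om_pow_pos _ _))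
  obtain ⟨G, hG, hv⟩ := H (om w ^ (4 * N2)) (om_pow_pos _ _)
    (fun n κ => ((w - a n) ^ (κ + 1))⁻¹) (fun n κ hκ => by
      have h0 : 0 < ‖w - a n‖ := norm_pos_iff.2 (hne n)
      rw [norm_inv, norm_pow]
      rcases le_or_gt 1 ‖w - a n‖ with h | h
      · exact (inv_le_one_of_one_le₀ (one_le_pow₀ h)).trans (one_le_om_pow _ _)
      · rw [inv_le_comm₀ (pow_pos h0 _) (om_pow_pos _ _)]
        calc (om w ^ (4 * N2))⁻¹ = (om w ^ (2 * (2 * N2)))⁻¹ := by congr 2; ring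
          _ ≤ (om (a n) ^ (2 * N2))⁻¹ := inv_om_pow_shift (by rw [norm_sub_rev]; linarith) _
          _ = ((om (a n) ^ N2)⁻¹) ^ 2 := by rw [mul_comm, pow_mul, inv_pow]
          _ ≤ (‖w - a n‖ ^ ((p n + 1) / 2)) ^ 2 :=
            pow_le_pow_left₀ (inv_om_pow_pos _ _).le (hw n) 2
          _ = ‖w - a n‖ ^ ((p n + 1) / 2 * 2) := by rw [pow_mul]
          _ ≤ _ := pow_le_pow_of_le_one h0.le h.le (by omega))
  refine ⟨fun z => 1 + (z - w) * G z, ?_, fun n => ?_, fun z hz => ?_⟩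
  · have h1 : Bd 1 (1 + N0) (fun _ => (1 : ℂ)) :=
      (bd_const 1).mono (by simp) zero_le_one (Nat.zero_le _)
    refine (h1.add ((bd_sub_const w).mul hG)).mono ?_ (om_pow_pos _ _).le (by omega)
    rw [← pow_succ']
    have := hundred_mul_om_pow w (4 * N2 + 1)
    have := one_le_om_pow w (4 * N2 + 1)
    linarith
  · have h1 := ((hv n).cont_mul (h := fun z => z - w) (by fun_prop)).add
      ((van_pow (a n) (p n)).cont_mul (h := fun _ => ((w - a n) ^ p n)⁻¹) continuousAt_const)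
    refine h1.congr' (fun z => ?_)
    rw [← geom_jp (hne n)]
    ring
  · have h1 := inv_om_pow_succ w (4 * N2 + 2 * N0)
    have h2 := inv_om_pow_le_one w (4 * N2 + 2 * N0 + 1)
    have h3 := hG.near (z := w) (w := z) (by linarith)
    rw [← pow_add] at h3
    have h4 : ‖(z - w) * G z‖ ≤ 1 / 100 := by
      rw [norm_mul]
      calc ‖z - w‖ * ‖G z‖ ≤ (om w ^ (4 * N2 + 2 * N0))⁻¹ / 100 * om w ^ (4 * N2 + 2 * N0) :=
            mul_le_mul (hz.trans h1) h3 (norm_nonneg _)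
              (by have := inv_om_pow_pos w (4 * N2 + 2 * N0); positivity)
        _ = 1 / 100 := by
            have := om_pos w
            field_simp
    have h5 := norm_sub_le (1 + (z - w) * G z) ((z - w) * G z)
    rw [add_sub_cancel_right, norm_one] at h5
    linarith

lemma circle_of_lower {f : ℂ → ℂ} {N M : ℕ} (hf : Bd 1 N f) {z : ℂ}
    (hz : (om z ^ M)⁻¹ ≤ ‖f z‖ + ‖deriv f z‖) : ∃ r : ℝ, 0 ≤ r ∧ r ≤ 1 ∧
      ∀ w ∈ sphere z r, (om z ^ (2 * M + 2 * N + 3))⁻¹ ≤ ‖f w‖ := by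
  by_cases h : (om z ^ (2 * M + 2 * N + 3))⁻¹ ≤ ‖f z‖
  · refine ⟨0, le_rfl, zero_le_one, fun w hw => ?_⟩
    obtain rfl : w = z := by simpa using hw
    exact h
  rw [not_le] at h
  refine ⟨(om z ^ (M + 2 * N + 2))⁻¹, (inv_om_pow_pos _ _).le, inv_om_pow_le_one _ _,
    fun w hw => ?_⟩
  have hr := mem_sphere_iff_norm.1 hw
  have h1 := hf.taylor (z := z) (w := w) (by rw [hr]; exact inv_om_pow_le_one _ _)
  have h2 : ‖deriv f z * (w - z)‖ ≤ ‖f w‖ + ‖f z‖ + ‖f w - f z - deriv f z * (w - z)‖ := by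
    have e : deriv f z * (w - z) = f w - f z - (f w - f z - deriv f z * (w - z)) := by ring
    conv_lhs => rw [e]
    linarith [norm_sub_le (f w - f z) (f w - f z - deriv f z * (w - z)), norm_sub_le (f w) (f z)]
  rw [norm_mul, hr] at h2
  rw [hr] at h1
  have h3 : om z ^ (2 * N + 1) * ((om z ^ (M + 2 * N + 2))⁻¹) ^ 2 =
      (om z ^ (2 * M + 2 * N + 3))⁻¹ := by
    have := om_pos z
    field_simp
    ring
  have h4 : (om z ^ M)⁻¹ * (om z ^ (M + 2 * N + 2))⁻¹ = (om z ^ (2 * M + 2 * N + 2))⁻¹ := by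
    have := om_pos z
    field_simp
    ring
  have h5 := inv_om_pow_succ z (2 * M + 2 * N + 2)
  have h6 := inv_om_pow_pos z (M + 2 * N + 2)
  have h7 := inv_om_pow_le_one z (M + 2 * N + 2)
  have h8 := mul_le_mul_of_nonneg_right hz h6.le
  have h9 : ‖f z‖ * (om z ^ (M + 2 * N + 2))⁻¹ ≤ ‖f z‖ := mul_le_of_le_one_right (norm_nonneg _) h7
  have h10 := inv_om_pow_pos z (2 * M + 2 * N + 2)
  rw [h3] at h1
  rw [h4] at h8
  change (om z ^ (2 * M + 2 * N + 3))⁻¹ ≤ _ at h5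
  nlinarith

/-- the properties of the completing function -/
structure Core (a : ℕ → ℂ) (p : ℕ → ℕ) (f : ℂ → ℂ) (M : ℕ) : Prop where
  bd : Bd 1 M f
  top : ∀ n, ∃ c : ℝ, (om (a n) ^ M)⁻¹ ≤ c ∧
    Van (fun z => f z - (c : ℂ) * (z - a n) ^ p n) (a n) (p n + 1)
  simple : ∀ w, f w = 0 → w ∉ Set.range a → (om w ^ M)⁻¹ ≤ ‖deriv f w‖
  circ : ∀ z, ∃ ζ : ℂ, ∃ r : ℝ, 0 ≤ r ∧ r ≤ 1 ∧ ‖z - ζ‖ ≤ r ∧
    ∀ w ∈ sphere ζ r, (om z ^ M)⁻¹ ≤ ‖f w‖

theorem IP.core (H : IP a p N0) (hp : ∀ n, 1 ≤ p n) : ∃ f M, Core a p f M := by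
  obtain ⟨K, f0, hf0, hv0⟩ := H.sj.f0 hp
  set N := 2 * N0 + 2 with hN
  set N2 := 2 * N + 3 + (K + 1) with hN2
  let Ω : Set ℂ := {w | ∀ n, (om (a n) ^ N2)⁻¹ ≤ ‖w - a n‖ ^ ((p n + 1) / 2)}
  have hpk : ∀ w, ∃ h : ℂ → ℂ, w ∈ Ω → Bd (om w ^ (4 * N2 + 2)) (N0 + 1) h ∧
      (∀ n, Van h (a n) (p n)) ∧
      ∀ z, ‖z - w‖ ≤ (om w ^ (4 * N2 + 2 * N0 + 1))⁻¹ → 1 / 2 ≤ ‖h z‖ := by
    intro w
    by_cases hw : w ∈ Ω
    · obtain ⟨h, hh⟩ := H.peak hp N2 w hw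
      exact ⟨h, fun _ => hh⟩
    · exact ⟨0, fun h => absurd h hw⟩
  choose h hh using hpk
  have hf0' : Bd 1 N f0 := hf0.mono le_rfl zero_le_one (by omega)
  obtain ⟨g, hg, hgv, M, hM⟩ := perturb hf0' Ω (4 * N2 + 2 + (4 * N2 + 2)) (4 * N2 + 2 * N0 + 1)
    (fun w z => h w z * h w z) (fun w hw => by
      refine ((hh w hw).1.mul (hh w hw).1).mono ?_ (om_pow_pos _ _).le (by omega)
      rw [← pow_add]) (fun w hw z hz => by
      have := (hh w hw).2.2 z hz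
      rw [norm_mul]
      nlinarith)
  set f : ℂ → ℂ := fun z => f0 z + g z with hf
  have hfb : Bd 1 (N + 1) f := (hf0'.add hg).absorb (by norm_num)
  have hR : ∀ n, Van (fun z => f z - (((om (a n) ^ K)⁻¹ : ℝ) : ℂ) * (z - a n) ^ p n) (a n)
      (p n + (p n + 1) / 2) := by
    intro n
    have h1 : Van g (a n) (p n + p n) :=
      hgv _ _ (fun w hw => ((hh w hw).2.1 n).mul ((hh w hw).2.1 n))
    have := hp n
    exact ((hv0 n).add (h1.mono (by omega))).congr' (fun z => by simp only [hf]; ring)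
  have hle1 : ∀ n z, ‖z - a n‖ ^ ((p n + 1) / 2) ≤ (om (a n) ^ N2)⁻¹ → ‖z - a n‖ ≤ 1 := by
    intro n z hz
    have := hp n
    exact (pow_le_one_iff_of_nonneg (norm_nonneg _) (by omega)).1 (hz.trans (inv_om_pow_le_one _ _))
  have hA : ∀ n z, ‖z - a n‖ ^ ((p n + 1) / 2) ≤ (om (a n) ^ N2)⁻¹ →
      (om (a n) ^ (K + 1))⁻¹ * ‖z - a n‖ ^ p n ≤ ‖f z‖ := by
    intro n z hz
    have h1 := (hR n).schwarz (hfb.1.fun_sub (by fun_prop)) (M := om (a n) ^ (2 * N + 3))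
      (fun w hw => by
        have hw' := mem_sphere_iff_norm.1 hw
        have h2 := hfb.near (z := a n) (w := w) (by rw [hw']; norm_num)
        have h3 := norm_sub_le (f w) ((((om (a n) ^ K)⁻¹ : ℝ) : ℂ) * (w - a n) ^ p n)
        rw [norm_mul, norm_inv_om_pow, norm_pow, hw', one_pow, mul_one] at h3
        have h4 := inv_om_pow_le_one (a n) K
        have h5 := hundred_mul_om_pow (a n) (2 * (N + 1))
        have h6 := one_le_om_pow (a n) (2 * (N + 1))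
        change _ ≤ om (a n) ^ (2 * N + 3) at h5
        linarith) (hle1 n z hz)
    have h2 := norm_sub_norm_le ((((om (a n) ^ K)⁻¹ : ℝ) : ℂ) * (z - a n) ^ p n) (f z)
    rw [norm_sub_rev, norm_mul, norm_inv_om_pow, norm_pow] at h2
    have h3 : om (a n) ^ (2 * N + 3) * ‖z - a n‖ ^ (p n + (p n + 1) / 2) ≤
        (om (a n) ^ (K + 1))⁻¹ * ‖z - a n‖ ^ p n := by
      rw [pow_add ‖z - a n‖, mul_comm (‖z - a n‖ ^ p n), ← mul_assoc]
      refine mul_le_mul_of_nonneg_right ?_ (by positivity)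
      rw [← inv_om_pow_add_mul (a n) (K + 1) (2 * N + 3), mul_comm, add_comm (K + 1)]
      exact mul_le_mul_of_nonneg_right hz (om_pow_pos _ _).le
    have h4 := mul_le_mul_of_nonneg_right (inv_om_pow_succ (a n) K)
      (show 0 ≤ ‖z - a n‖ ^ p n by positivity)
    have h5 := mul_nonneg (inv_om_pow_pos (a n) K).le (show 0 ≤ ‖z - a n‖ ^ p n by positivity)
    linarith
  refine ⟨f, 2 * M + 2 * (N + 1) + 3 + 2 * (K + 1 + 2 * N2), hfb.mono le_rfl zero_le_one (by omega),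
    fun n => ⟨_, inv_om_pow_anti _ (by omega), (hR n).mono (by have := hp n; omega)⟩,
    fun w hw hwa => ?_, fun z => ?_⟩
  · have hwΩ : w ∈ Ω := by
      intro n
      by_contra hlt
      have h1 := hA n w (not_le.1 hlt).le
      have h2 : 0 < ‖w - a n‖ := norm_pos_iff.2 (sub_ne_zero.2 fun h => hwa ⟨n, h.symm⟩)
      rw [hw, norm_zero] at h1
      exact absurd h1 (not_le.2 (mul_pos (inv_om_pow_pos _ _) (pow_pos h2 _)))
    have h1 := hM w hwΩ
    change _ ≤ ‖f w‖ + _ at h1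
    rw [hw, norm_zero, zero_add] at h1
    exact (inv_om_pow_anti _ (by omega)).trans h1
  · by_cases hz : z ∈ Ω
    · obtain ⟨r, h0, h1, h2⟩ := circle_of_lower hfb (hM z hz)
      exact ⟨z, r, h0, h1, by simpa using h0,
        fun w hw => (inv_om_pow_anti _ (by omega)).trans (h2 w hw)⟩
    · simp only [Ω, Set.mem_ofPred_eq, not_forall, not_le] at hz
      obtain ⟨n, hn⟩ := hz
      have hq : (p n + 1) / 2 ≠ 0 := by have := hp n; omega
      obtain ⟨r, hr0, hr⟩ : ∃ r : ℝ, 0 ≤ r ∧ r ^ ((p n + 1) / 2) = (om (a n) ^ N2)⁻¹ :=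
        ⟨_, Real.rpow_nonneg (inv_om_pow_pos _ _).le _,
          Real.rpow_inv_natCast_pow (inv_om_pow_pos _ _).le hq⟩
      have hr1 : r ≤ 1 := (pow_le_one_iff_of_nonneg hr0 hq).1 (hr ▸ inv_om_pow_le_one _ _)
      have hzr : ‖z - a n‖ ≤ r := by
        rw [← hr] at hn
        exact (lt_of_pow_lt_pow_left₀ _ hr0 hn).le
      refine ⟨a n, r, hr0, hr1, hzr, fun w hw => ?_⟩
      have hw' := mem_sphere_iff_norm.1 hw
      refine le_trans ?_ (hA n w (by rw [hw', hr]))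
      rw [hw']
      calc (om z ^ (2 * M + 2 * (N + 1) + 3 + 2 * (K + 1 + 2 * N2)))⁻¹
          ≤ (om z ^ (2 * (K + 1 + 2 * N2)))⁻¹ := inv_om_pow_anti _ (by omega)
        _ ≤ (om (a n) ^ (K + 1 + 2 * N2))⁻¹ :=
            inv_om_pow_shift (by rw [norm_sub_rev]; linarith) _
        _ = (om (a n) ^ (K + 1))⁻¹ * r ^ ((p n + 1) / 2 * 2) := by
            rw [pow_mul r, hr, pow_add _ (K + 1), mul_inv, mul_comm 2, pow_mul, inv_pow]
        _ ≤ _ := mul_le_mul_of_nonneg_left (pow_le_pow_of_le_one hr0 hr1 (by omega))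
            (inv_om_pow_pos _ _).le

end Pool.Agent.P.MP_2fa38d_an
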