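import Pool.Agent.P.MP_2fa38d_an.Core

set_option autoImplicit false

open Metric Filter Topology

namespace Pool.Agent.P.MP_2fa38d_an

variable {a : ℕ → ℂ} {p : ℕ → ℕ} {f : ℂ → ℂ} {M : ℕ}

lemma div_entire {f g : ℂ → ℂ} (h : ∀ z0, ∃ m : ℕ, ∃ k l : ℂ → ℂ, Differentiable ℂ k ∧
    Differentiable ℂ l ∧ k z0 ≠ 0 ∧ (∀ z, f z = (z - z0) ^ m * k z) ∧
      ∀ z, g z = (z - z0) ^ m * l z) :
    ∃ h : ℂ → ℂ, Differentiable ℂ h ∧ ∀ z, g z = f z * h z := by
  choose m k l hk hl h0 hf hg using h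
  have key : ∀ z, g z = f z * (l z z / k z z) := by
    intro z
    rw [hf z z, hg z z]
    have := h0 z
    field_simp
  refine ⟨fun z => l z z / k z z, fun z0 => ?_, key⟩
  refine (((hl z0) z0).div ((hk z0) z0) (h0 z0)).congr_of_eventuallyEq ?_
  filter_upwards [(hk z0).continuous.continuousAt.eventually_ne (h0 z0)] with z hz
  by_cases hzz : z = z0
  · rw [hzz]; rfl
  · have h1 : (z - z0) ^ m z0 ≠ 0 := pow_ne_zero _ (sub_ne_zero.2 hzz)
    have h2 := key z
    rw [hf z0 z, hg z0 z, mul_assoc] at h2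
    have h3 := mul_left_cancel₀ h1 h2
    simp only [Pi.div_apply]
    rw [h3, mul_div_cancel_left₀ _ hz]

lemma quot_one {f k : ℂ → ℂ} {w : ℂ} (hk : Differentiable ℂ k)
    (h : ∀ z, f z = (z - w) ^ 1 * k z) : k w = deriv f w := by
  have e : f = fun z => (z - w) * k z := funext fun z => by rw [h, pow_one]
  have h1 : HasDerivAt (fun z => (z - w) * k z) (1 * k w + (w - w) * deriv k w) w :=
    ((hasDerivAt_id w).sub_const w).mul (hk w).hasDerivAt
  rw [e, h1.deriv]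
  simp

lemma Core.van (hc : Core a p f M) (n : ℕ) : Van f (a n) (p n) := by
  obtain ⟨c, -, hv⟩ := hc.top n
  exact ((hv.mono (Nat.le_succ _)).add ((van_pow (a n) (p n)).cont_mul
    (h := fun _ => (c : ℂ)) continuousAt_const)).congr' (fun z => by ring)

lemma Core.two (hc : Core a p f M) (n : ℕ) :
    (om (a n) ^ M)⁻¹ ≤ ‖iteratedDeriv (p n) f (a n)‖ / ((p n).factorial : ℝ) := by
  obtain ⟨c, hc0, hv⟩ := hc.top n
  have h1 : AnalyticAt ℂ (fun z => (c : ℂ) * (z - a n) ^ p n) (a n) := by fun_prop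
  have h2 := hc.bd.1.analyticAt (a n)
  have h3 := (van_iff (h2.fun_sub h1)).1 hv (p n) (Nat.lt_succ_self _)
  rw [iteratedDeriv_fun_sub h2.contDiffAt h1.contDiffAt, iteratedDeriv_const_mul_field,
    iteratedDeriv_sub_pow, if_pos rfl, sub_eq_zero] at h3
  rw [h3, norm_mul, Complex.norm_natCast, Complex.norm_real,
    mul_div_cancel_right₀ _ (by exact_mod_cast (p n).factorial_ne_zero)]
  exact hc0.trans (le_abs_self c)

lemma Core.div (hc : Core a p f M) {g : ℂ → ℂ} {C : ℝ} {N : ℕ} (hg : Bd C N g)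
    (hv : ∀ n, Van g (a n) (p n)) (h0 : ∀ w, f w = 0 → g w = 0) :
    ∃ h, Bd C (2 * N + M) h ∧ ∀ z, g z = f z * h z := by
  obtain ⟨h, hh, hgh⟩ := div_entire (f := f) (g := g) (fun z0 => by
    by_cases hz : z0 ∈ Set.range a
    · obtain ⟨n, rfl⟩ := hz
      obtain ⟨c, hc0, hcv⟩ := hc.top n
      obtain ⟨R, hR, hR'⟩ := hcv.exists_entire (hc.bd.1.fun_sub (by fun_prop))
      obtain ⟨l, hl, hl'⟩ := (hv n).exists_entire hg.1
      refine ⟨p n, fun z => c + (z - a n) * R z, l, by fun_prop, hl, ?_, fun z => ?_, hl'⟩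
      · simp only [sub_self, zero_mul, add_zero]
        exact_mod_cast ((inv_om_pow_pos _ _).trans_le hc0).ne'
      · have := hR' z
        rw [pow_succ] at this
        linear_combination this
    · by_cases hf : f z0 = 0
      · obtain ⟨k, hk, hk'⟩ := (van_one hc.bd.1 hf).exists_entire hc.bd.1
        obtain ⟨l, hl, hl'⟩ := (van_one hg.1 (h0 z0 hf)).exists_entire hg.1
        refine ⟨1, k, l, hk, hl, ?_, hk', hl'⟩
        rw [quot_one hk hk']
        exact norm_pos_iff.1 ((inv_om_pow_pos _ _).trans_le (hc.simple z0 hf hz))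
      · exact ⟨0, f, g, hc.bd.1, hg.1, hf, by simp, by simp⟩)
  refine ⟨h, ⟨hh, fun z => ?_⟩, hgh⟩
  obtain ⟨ζ, r, hr0, hr1, hz, hs⟩ := hc.circ z
  refine max_ball hh hr0 (fun w hw => ?_) (mem_closedBall_iff_norm.2 hz)
  have h1 := hs w hw
  have h2 := hg.near (z := z) (w := w) (by
    have e : w - z = (w - ζ) - (z - ζ) := by ring
    rw [e]
    linarith [norm_sub_le (w - ζ) (z - ζ), mem_sphere_iff_norm.1 hw])
  rw [hgh, norm_mul] at h2
  have h3 := mul_le_mul_of_nonneg_right h1 (norm_nonneg (h w))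
  have h4 := (inv_mul_le_iff₀ (om_pow_pos z M)).1 (h3.trans h2)
  rw [pow_add]
  linarith

lemma Core.slow (hc : Core a p f M) (z : ℂ) : ∃ w, ‖w - z‖ ≤ 2 ∧ (om z ^ M)⁻¹ ≤ ‖f w‖ := by
  obtain ⟨ζ, r, hr0, hr1, hz, hs⟩ := hc.circ z
  refine ⟨ζ + r, ?_, hs _ (by simp [abs_of_nonneg hr0])⟩
  have e : ζ + r - z = (r : ℂ) - (z - ζ) := by ring
  have := norm_sub_le (r : ℂ) (z - ζ)
  rw [Complex.norm_real, Real.norm_of_nonneg hr0] at this
  rw [e]
  linarith

end Pool.Agent.P.MP_2fa38d_an
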