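import Pool.Agent.P.MP_2fa38d_an.Grow

set_option autoImplicit false

open Metric Filter Topology

namespace Pool.Agent.P.MP_2fa38d_an

variable {a : ℕ → ℂ} {p : ℕ → ℕ} {N0 : ℕ}

lemma SJ.prod (H : SJ a p N0) (hp : ∀ n, 1 ≤ p n) (n : ℕ) : ∃ P, Bd (om (a n)) (2 * N0 + 1) P ∧
    Van (fun z => P z - (z - a n) ^ p n) (a n) (p n + (p n + 1) / 2) ∧
    ∀ m, m ≠ n → Van P (a m) (p m + (p m + 1) / 2) := by
  have := hp n
  obtain ⟨u, hu, hu1, hu2⟩ := H n (p n / 2) (by omega)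
  obtain ⟨v, hv, hv1, hv2⟩ := H n (p n - p n / 2 - 1) (by omega)
  refine ⟨fun z => u z * ((z - a n) * v z), ?_, ?_, fun m hm => ?_⟩
  · have := hu.mul ((bd_sub_const (a n)).mul hv)
    exact this.mono (by simp) (om_pos _).le (by omega)
  · have h1 : Van (fun z => z - a n) (a n) 1 := by simpa using van_pow (a n) 1
    have h2 : Van v (a n) (p n - p n / 2 - 1) :=
      ((hv1.mono (by omega)).add (van_pow _ _)).congr' (fun z => by ring)
    have h3 := (hu1.mul (h1.mul h2)).mono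
      (show p n + (p n + 1) / 2 ≤ p n + (1 + (p n - p n / 2 - 1)) by omega)
    have h4 := ((van_pow (a n) (p n / 2)).mul (h1.mul hv1)).mono
      (show p n + (p n + 1) / 2 ≤ p n / 2 + (1 + p n) by omega)
    refine (h3.add h4).congr' (fun z => ?_)
    have e : (z - a n) ^ p n = (z - a n) ^ (p n / 2) * ((z - a n) * (z - a n) ^ (p n - p n / 2 - 1)) := by
      rw [← pow_succ', ← pow_add]; congr 1; omega
    rw [e]
    ring
  · have := hp m
    exact ((hu2 m hm).mul ((hv2 m hm).cont_mul (by fun_prop))).mono (by omega)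

lemma SJ.f0 (H : SJ a p N0) (hp : ∀ n, 1 ≤ p n) : ∃ K : ℕ, ∃ f0, Bd 1 (2 * N0 + 1) f0 ∧
    ∀ n, Van (fun z => f0 z - (((om (a n) ^ K)⁻¹ : ℝ) : ℂ) * (z - a n) ^ p n) (a n)
      (p n + (p n + 1) / 2) := by
  obtain ⟨K, hK, hK'⟩ := area a (2 * N0 + 1) (H.sep hp)
  choose P hP hP1 hP2 using H.prod hp
  let F : ℕ → ℂ → ℂ := fun n z => (((om (a n) ^ (K + 1))⁻¹ : ℝ) : ℂ) * P n z
  have hF : ∀ n, Bd ((om (a n) ^ K)⁻¹) (2 * N0 + 1) (F n) := by
    intro n
    have := (hP n).const_mul (((om (a n) ^ (K + 1))⁻¹ : ℝ) : ℂ)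
    have e := inv_om_pow_add_mul (a n) K 1
    rw [pow_one] at e
    rwa [norm_inv_om_pow, e] at this
  refine ⟨K + 1, fun z => ∑' n, F n z, (Bd.tsum hF hK).mono hK' zero_le_one le_rfl,
    fun n => van_tsum_single hF hK n ?_
      (fun m hm => (hP2 m n (Ne.symm hm)).cont_mul continuousAt_const)⟩
  exact ((hP1 n).cont_mul (h := fun _ => (((om (a n) ^ (K + 1))⁻¹ : ℝ) : ℂ))
    continuousAt_const).congr' (fun z => by simp only [F]; ring)

end Pool.Agent.P.MP_2fa38d_an
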