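import Pool.Agent.P.MP_2fa38d_an.Baire
import Pool.Agent.P.MP_2fa38d_an.Area

set_option autoImplicit false

open Metric Filter Topology

namespace Pool.Agent.P.MP_2fa38d_an

variable {a : ℕ → ℂ} {p : ℕ → ℕ} {N0 : ℕ}

lemma IP.sj (H : IP a p N0) : SJ a p N0 := by
  intro n k hk
  obtain ⟨g, hg, hv⟩ := H 1 one_pos (fun m κ => if m = n ∧ κ = k then 1 else 0) (fun m κ _ => by
    split_ifs <;> simp)
  refine ⟨g, hg, (hv n).congr' fun z => ?_, fun m hm => (hv m).congr' fun z => ?_⟩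
  · simp [jp, hk]
  · simp [jp, hm]

lemma SJ.sep (H : SJ a p N0) (hp : ∀ n, 1 ≤ p n) (n m : ℕ) (hnm : n ≠ m) :
    (om (a n) ^ (2 * N0 + 1))⁻¹ ≤ ‖a n - a m‖ := by
  by_cases h : ‖a m - a n‖ ≤ 1
  · obtain ⟨g, hg, hv, hv'⟩ := H n 0 (hp n)
    have h0 : g (a m) = 0 := (hv' m hnm.symm).apply_eq_zero (hp m)
    have hb : Bd (1 + 1) N0 (fun z => g z - 1) :=
      hg.sub ((bd_const 1).mono (by simp) zero_le_one (Nat.zero_le _))
    have hv1 : Van (fun z => g z - 1) (a n) 1 := by simpa using hv.mono (hp n)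
    have h1 := hb.schwarz hv1 h
    rw [h0, zero_sub, norm_neg, norm_one, pow_one, norm_sub_rev] at h1
    rw [inv_le_iff_one_le_mul₀ (om_pow_pos _ _)]
    have h2 := hundred_mul_om_pow (a n) (2 * N0)
    have h3 := om_pow_pos (a n) (2 * N0)
    nlinarith [norm_nonneg (a n - a m)]
  · rw [not_le, norm_sub_rev] at h
    exact (inv_om_pow_le_one _ _).trans h.le

lemma SJ.two_pow (H : SJ a p N0) (hp : ∀ n, 1 ≤ p n) (n : ℕ) :
    (2 : ℝ) ^ p n ≤ om (a n) ^ (2 * N0 + 1) := by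
  obtain ⟨j, hj⟩ : ∃ j, p n = j + 1 := ⟨p n - 1, by have := hp n; omega⟩
  obtain ⟨g, hg, hv, -⟩ := H n j (by omega)
  obtain ⟨l, hl, hl'⟩ := hv.exists_entire (hg.1.fun_sub (by fun_prop))
  have h1 := quot_le (h := g) (k := fun z => 1 + (z - a n) * l z) (a := a n) (p := j)
    (by fun_prop) (fun z => by
      have := hl' z
      rw [hj, pow_succ] at this
      linear_combination this) two_pos (M := 1 * om (a n) ^ (2 * N0))
    (fun z hz => hg.near (mem_sphere_iff_norm.1 hz).le) (mem_closedBall_self zero_le_two)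
  simp only [sub_self, zero_mul, add_zero, norm_one, one_mul] at h1
  rw [le_div_iff₀ (by positivity), one_mul] at h1
  rw [hj, pow_succ]
  have h2 := hundred_mul_om_pow (a n) (2 * N0)
  have h3 := om_pow_pos (a n) (2 * N0)
  linarith

lemma norm_inv_om_pow (z : ℂ) (K : ℕ) : ‖(((om z ^ K)⁻¹ : ℝ) : ℂ)‖ = (om z ^ K)⁻¹ := by
  rw [Complex.norm_real, Real.norm_of_nonneg (inv_om_pow_pos z K).le]

lemma inv_om_pow_add_mul (z : ℂ) (K L : ℕ) : (om z ^ (K + L))⁻¹ * om z ^ L = (om z ^ K)⁻¹ := by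
  have := om_pos z
  rw [pow_add]
  field_simp

lemma bd_sum {ι : Type*} (s : Finset ι) {C : ℝ} {N : ℕ} {F : ι → ℂ → ℂ}
    (h : ∀ i ∈ s, Bd C N (F i)) : Bd (s.card * C) N (fun z => ∑ i ∈ s, F i z) := by
  refine ⟨Differentiable.fun_sum fun i hi => (h i hi).1, fun z => ?_⟩
  refine (norm_sum_le_of_le s fun i hi => (h i hi).2 z).trans ?_
  rw [Finset.sum_const, nsmul_eq_mul, mul_assoc]

lemma van_sum {ι : Type*} (s : Finset ι) {F : ι → ℂ → ℂ} {b : ℂ} {q : ℕ}
    (h : ∀ i ∈ s, Van (F i) b q) : Van (fun z => ∑ i ∈ s, F i z) b q :=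
  Van.congr' (Asymptotics.IsBigO.sum h) (fun z => Finset.sum_apply z s F)

lemma van_tsum_single {u : ℕ → ℝ} {N : ℕ} {F : ℕ → ℂ → ℂ} (hF : ∀ i, Bd (u i) N (F i))
    (hu : Summable u) {b : ℂ} {q : ℕ} (n : ℕ) {P : ℂ → ℂ} (h1 : Van (fun z => F n z - P z) b q)
    (h2 : ∀ m, m ≠ n → Van (F m) b q) : Van (fun z => ∑' i, F i z - P z) b q := by
  have hF' : ∀ m, Bd (u m) N (fun z => if m = n then 0 else F m z) := by
    intro m
    split_ifs
    · exact (bd_const 0).mono (by simpa using (hF m).nonneg) (hF m).nonneg (Nat.zero_le _)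
    · exact hF m
  have h3 : Van (fun z => ∑' m, if m = n then 0 else F m z) b q := by
    refine van_tsum hF' hu (fun m => ?_)
    split_ifs with h
    · exact van_zero_fun _ _
    · exact h2 m h
  refine (h3.add h1).congr' (fun z => ?_)
  rw [(Bd.summable hF hu z).tsum_eq_add_tsum_ite n]
  ring

lemma SJ.p_le (H : SJ a p N0) (hp : ∀ n, 1 ≤ p n) (n : ℕ) :
    (p n : ℝ) ≤ om (a n) ^ (2 * N0 + 1) :=
  le_trans (by exact_mod_cast (Nat.lt_two_pow_self).le) (H.two_pow hp n)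

lemma SJ.decay (H : SJ a p N0) (hp : ∀ n, 1 ≤ p n) : ∃ K : ℕ, ∀ t > (0:ℝ), ∀ lam : ℕ → ℕ → ℂ,
    (∀ n, ∀ κ < p n, ‖lam n κ‖ ≤ t * (om (a n) ^ K)⁻¹) →
    ∃ g, Bd t N0 g ∧ ∀ n, Van (fun z => g z - jp (lam n) (p n) (a n) z) (a n) (p n) := by
  obtain ⟨K, hK, hK'⟩ := area a (2 * N0 + 1) (H.sep hp)
  have H' : ∀ n k, ∃ g : ℂ → ℂ, k < p n → Bd 1 N0 g ∧
      Van (fun z => g z - (z - a n) ^ k) (a n) (p n) ∧ ∀ m, m ≠ n → Van g (a m) (p m) := by
    intro n k
    by_cases h : k < p n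
    · obtain ⟨g, hg⟩ := H n k h
      exact ⟨g, fun _ => hg⟩
    · exact ⟨0, fun h' => absurd h' h⟩
  choose g hg using H'
  refine ⟨K + (2 * N0 + 1), fun t ht lam hl => ?_⟩
  let F : ℕ → ℂ → ℂ := fun n z => ∑ κ ∈ Finset.range (p n), lam n κ * g n κ z
  have hF : ∀ n, Bd (t * (om (a n) ^ K)⁻¹) N0 (F n) := by
    intro n
    have h0 := inv_om_pow_pos (a n) (K + (2 * N0 + 1))
    have h0' := inv_om_pow_pos (a n) K
    refine (bd_sum (Finset.range (p n)) (C := t * (om (a n) ^ (K + (2 * N0 + 1)))⁻¹)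
      (fun κ hκ => ?_)).mono ?_ (by positivity) le_rfl
    · rw [Finset.mem_range] at hκ
      exact ((hg n κ hκ).1.const_mul _).mono (by simpa using hl n κ hκ) (by positivity) le_rfl
    · rw [Finset.card_range, ← inv_om_pow_add_mul (a n) K (2 * N0 + 1), mul_comm, ← mul_assoc]
      exact mul_le_mul_of_nonneg_left (H.p_le hp n) (by positivity)
  refine ⟨fun z => ∑' n, F n z, (Bd.tsum hF (hK.mul_left t)).mono ?_ ht.le le_rfl,
    fun n => van_tsum_single hF (hK.mul_left t) n ?_ (fun m hm => ?_)⟩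
  · rw [tsum_mul_left]
    exact mul_le_of_le_one_right ht.le hK'
  · refine (van_sum (Finset.range (p n)) (fun κ hκ => (hg n κ (Finset.mem_range.1 hκ)).2.1.cont_mul
      (h := fun _ => lam n κ) continuousAt_const)).congr' (fun z => ?_)
    simp only [F, jp, mul_sub, Finset.sum_sub_distrib]
  · exact van_sum _ (fun κ hκ => ((hg m κ (Finset.mem_range.1 hκ)).2.2 n (Ne.symm hm)).cont_mul
      continuousAt_const)

/-- a function which is large in one half plane -/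
noncomputable def chi (σ : ℝ) (z : ℂ) : ℂ :=
  1100 * (Complex.exp (-(σ * Complex.I * z)) * (z + 2 * σ * Complex.I) ^ 2)

/-- the side of a point -/
noncomputable def sg (b : ℂ) : ℝ := if 0 ≤ b.im then 1 else -1

lemma sg_cases (b : ℂ) : sg b = 1 ∨ sg b = -1 := by
  unfold sg; split_ifs <;> simp

lemma sg_mul (b : ℂ) : sg b * b.im = |b.im| := by
  unfold sg
  split_ifs with h
  · rw [abs_of_nonneg h, one_mul]
  · rw [abs_of_neg (not_le.1 h)]; ring

lemma norm_chi (σ : ℝ) (z : ℂ) :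
    ‖chi σ z‖ = 1100 * (Real.exp (σ * z.im) * ‖z + 2 * σ * Complex.I‖ ^ 2) := by
  unfold chi
  rw [norm_mul, norm_mul, Complex.norm_exp, norm_pow]
  simp

lemma bd_chi {σ : ℝ} (hσ : σ = 1 ∨ σ = -1) : Bd 1 2 (chi σ) := by
  refine ⟨by unfold chi; fun_prop, fun z => ?_⟩
  have h0 : |σ| = 1 := by rcases hσ with h | h <;> simp [h]
  have h1 : Real.exp (σ * z.im) ≤ Real.exp |z.im| := by
    refine Real.exp_le_exp.2 ((le_abs_self _).trans ?_)
    rw [abs_mul, h0, one_mul]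
  have h2 : ‖z + 2 * σ * Complex.I‖ ≤ ‖z‖ + 2 := by
    refine (norm_add_le _ _).trans ?_
    simp [h0]
  have h3 : ‖z + 2 * σ * Complex.I‖ ^ 2 ≤ 5 * (1 + ‖z‖ ^ 2) := by
    have := pow_le_pow_left₀ (norm_nonneg _) h2 2
    nlinarith [sq_nonneg (2 * ‖z‖ - 1)]
  have h4 := mul_le_mul h1 h3 (by positivity) (Real.exp_pos _).le
  have h5 := om_eq z
  have h6 := om_ge z
  rw [norm_chi]
  nlinarith

lemma chi_lower (b : ℂ) {z : ℂ} (hz : ‖z - b‖ ≤ 1) : om b ≤ ‖chi (sg b) z‖ := by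
  have h0 : |sg b| = 1 := by rcases sg_cases b with h | h <;> simp [h]
  have h00 : sg b ^ 2 = 1 := by rcases sg_cases b with h | h <;> simp [h]
  have h1 : |b.im| ≤ sg b * z.im + 1 := by
    have h := (Complex.abs_im_le_norm (z - b)).trans hz
    rw [Complex.sub_im] at h
    have h2 : |sg b * (z.im - b.im)| ≤ 1 := by rwa [abs_mul, h0, one_mul]
    have := (abs_le.1 h2).1
    rw [← sg_mul]
    linarith
  have h2 : Real.exp |b.im| ≤ 2.75 * Real.exp (sg b * z.im) := by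
    refine (Real.exp_le_exp.2 h1).trans ?_
    rw [Real.exp_add]
    have := Real.exp_one_lt_d9
    have := Real.exp_pos (sg b * z.im)
    nlinarith
  have h3 : ‖b + 2 * sg b * Complex.I‖ ^ 2 = ‖b‖ ^ 2 + 4 * |b.im| + 4 := by
    rw [Complex.sq_norm, Complex.sq_norm, Complex.normSq_apply, Complex.normSq_apply, ← sg_mul]
    simp
    nlinarith
  have h4 : ‖b + 2 * sg b * Complex.I‖ ≤ ‖z + 2 * sg b * Complex.I‖ + 1 := by
    have e : b + 2 * sg b * Complex.I = (z + 2 * sg b * Complex.I) - (z - b) := by ring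
    rw [e]
    linarith [norm_sub_le (z + 2 * sg b * Complex.I) (z - b)]
  have h5 : 2 ≤ ‖b + 2 * sg b * Complex.I‖ := by
    refine le_of_sq_le_sq ?_ (norm_nonneg _)
    nlinarith [abs_nonneg b.im, sq_nonneg ‖b‖]
  have h6 : 1 + ‖b‖ ^ 2 ≤ 4 * ‖z + 2 * sg b * Complex.I‖ ^ 2 := by
    have h7 : ‖b + 2 * sg b * Complex.I‖ ≤ 2 * ‖z + 2 * sg b * Complex.I‖ := by linarith
    have := pow_le_pow_left₀ (norm_nonneg _) h7 2
    nlinarith [abs_nonneg b.im]
  have h7 := mul_le_mul h2 h6 (by positivity) (by positivity)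
  rw [norm_chi, om_eq]
  nlinarith

lemma Bd.pow {N : ℕ} {g : ℂ → ℂ} (h : Bd 1 N g) (K : ℕ) : Bd 1 (N * K) (fun z => g z ^ K) := by
  refine ⟨h.1.pow K, fun z => ?_⟩
  rw [norm_pow, one_mul, pow_mul]
  exact pow_le_pow_left₀ (norm_nonneg _) (by simpa using h.2 z) K

lemma chi_pow_lower (b : ℂ) {z : ℂ} (hz : ‖z - b‖ ≤ 1) (K : ℕ) :
    om b ^ K ≤ ‖chi (sg b) z ^ K‖ := by
  rw [norm_pow]
  exact pow_le_pow_left₀ (om_pos b).le (chi_lower b hz) K

lemma SJ.grow (H : SJ a p N0) (hp : ∀ n, 1 ≤ p n) (N : ℕ) : ∃ N', ∀ t > (0:ℝ),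
    ∀ lam : ℕ → ℕ → ℂ, (∀ n, ∀ κ < p n, ‖lam n κ‖ ≤ t * om (a n) ^ N) →
    ∃ g, Bd t N' g ∧ ∀ n, Van (fun z => g z - jp (lam n) (p n) (a n) z) (a n) (p n) := by
  classical
  obtain ⟨K1, hdec⟩ := H.decay hp
  set K := K1 + (2 * N0 + 1 + N) with hK
  refine ⟨2 * K + N0 + 1, fun t ht lam hl => ?_⟩
  let Q : ℕ → ℂ → ℂ := fun n z => jp (lam n) (p n) (a n) z / chi (sg (a n)) z ^ K
  have hne : ∀ n z, ‖z - a n‖ ≤ 1 → chi (sg (a n)) z ^ K ≠ 0 := fun n z hz =>
    norm_pos_iff.1 ((om_pow_pos _ _).trans_le (chi_pow_lower _ hz K))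
  have hQd : ∀ n, DifferentiableOn ℂ (Q n) (closedBall (a n) 1) := fun n =>
    (differentiable_jp _ _ _).differentiableOn.div
      ((bd_chi (sg_cases _)).1.pow K).differentiableOn
      (fun z hz => hne n z (mem_closedBall_iff_norm.1 hz))
  have hQa : ∀ n, AnalyticAt ℂ (Q n) (a n) := fun n =>
    (hQd n).analyticAt (closedBall_mem_nhds _ one_pos)
  have hJ : ∀ n κ, ‖J (Q n) (a n) κ‖ ≤ t * (om (a n) ^ K1)⁻¹ := by
    intro n κ
    refine J_le (DifferentiableOn.diffContOnCl (by rw [closure_ball _ one_ne_zero]; exact hQd n))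
      (fun z hz => ?_) κ
    have hz' := mem_sphere_iff_norm.1 hz
    have h0 := inv_om_pow_pos (a n) K1
    have h1 : ‖jp (lam n) (p n) (a n) z‖ ≤ t * (om (a n) ^ K1)⁻¹ * om (a n) ^ K := by
      calc ‖jp (lam n) (p n) (a n) z‖ ≤ ∑ κ ∈ Finset.range (p n), t * om (a n) ^ N := by
            refine norm_sum_le_of_le _ (fun κ hκ => ?_)
            rw [norm_mul, norm_pow, hz', one_pow, mul_one]
            exact hl n κ (Finset.mem_range.1 hκ)
        _ = p n * (t * om (a n) ^ N) := by simp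
        _ ≤ om (a n) ^ (2 * N0 + 1) * (t * om (a n) ^ N) :=
            mul_le_mul_of_nonneg_right (H.p_le hp n) (mul_pos ht (om_pow_pos _ _)).le
        _ = _ := by
            have := om_pos (a n)
            rw [hK]
            field_simp
            ring
    simp only [Q]
    rw [norm_div, div_le_iff₀ (norm_pos_iff.2 (hne n z hz'.le))]
    exact h1.trans (mul_le_mul_of_nonneg_left (chi_pow_lower _ hz'.le K) (by positivity))
  have hg : ∀ σ : ℝ, σ = 1 ∨ σ = -1 → ∃ g, Bd t (2 * K + N0) g ∧ ∀ n,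
      (sg (a n) = σ → Van (fun z => g z - jp (lam n) (p n) (a n) z) (a n) (p n)) ∧
      (sg (a n) ≠ σ → Van g (a n) (p n)) := by
    intro σ hσ
    obtain ⟨g, hg, hv⟩ := hdec t ht (fun n κ => if sg (a n) = σ then J (Q n) (a n) κ else 0)
      (fun n κ _ => by
        split_ifs
        · exact hJ n κ
        · simpa using (mul_pos ht (inv_om_pow_pos (a n) K1)).le)
    have hb := (bd_chi hσ).pow K
    refine ⟨fun z => chi σ z ^ K * g z, by simpa using hb.mul hg, fun n => ⟨fun h => ?_, fun h => ?_⟩⟩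
    · have h1 := hv n
      simp only [h, if_true] at h1
      have h2 := (jets_iff (hQa n) (fun κ => J (Q n) (a n) κ) (p n)).1 (fun _ _ => rfl)
      refine ((h1.sub h2).cont_mul hb.1.continuous.continuousAt).congr ?_
      filter_upwards [closedBall_mem_nhds (a n) one_pos] with z hz
      have h3 := hne n z (mem_closedBall_iff_norm.1 hz)
      simp only [Q]
      rw [h] at h3 ⊢
      field_simp
      ring
    · have h1 := hv n
      simp only [h, if_false] at h1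
      refine (h1.congr' (fun z => ?_)).cont_mul hb.1.continuous.continuousAt
      simp [jp]
  obtain ⟨g1, hg1, hv1⟩ := hg 1 (Or.inl rfl)
  obtain ⟨g2, hg2, hv2⟩ := hg (-1) (Or.inr rfl)
  refine ⟨fun z => g1 z + g2 z, ⟨hg1.1.add hg2.1, fun z => ((hg1.add hg2).2 z).trans ?_⟩,
    fun n => ?_⟩
  · have := hundred_mul_om_pow z (2 * K + N0)
    have := om_pow_pos z (2 * K + N0)
    nlinarith
  rcases sg_cases (a n) with h | h
  · exact (((hv1 n).1 h).add ((hv2 n).2 (by rw [h]; norm_num))).congr' (fun z => by ring)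
  · exact (((hv2 n).1 h).add ((hv1 n).2 (by rw [h]; norm_num))).congr' (fun z => by ring)

lemma SJ.ip (H : SJ a p N0) (hp : ∀ n, 1 ≤ p n) : ∃ N, IP a p N := by
  obtain ⟨N, hN⟩ := H.grow hp 0
  exact ⟨N, fun t ht lam hl => hN t ht lam (by simpa using hl)⟩

end Pool.Agent.P.MP_2fa38d_an
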