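import Pool.Agent.P.MP_2fa38d_an.Div

set_option autoImplicit false

open Metric Filter Topology

namespace Pool.Agent.P.MP_2fa38d_an

variable {a : ℕ → ℂ} {p : ℕ → ℕ} {f : ℂ → ℂ} {M N0 : ℕ}

lemma Core.fix (hc : Core a p f M) (N : ℕ) (ν : ℂ → ℂ)
    (hν : ∀ w, f w = 0 → w ∉ Set.range a → ‖ν w‖ ≤ om w ^ N) :
    ∃ g N', Bd 1 N' g ∧ (∀ n, Van g (a n) (p n)) ∧ ∀ w, f w = 0 → w ∉ Set.range a → g w = ν w := by
  let Z := {w : ℂ // f w = 0 ∧ w ∉ Set.range a}
  obtain ⟨K, hK, hK'⟩ := area (fun w : Z => (w : ℂ)) (M + (2 * M + 1)) (fun w w' hww => by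
    rcases le_or_gt ‖(w' : ℂ) - w‖ 1 with h | h
    · have h0 : 0 < ‖(w' : ℂ) - w‖ :=
        norm_pos_iff.2 (sub_ne_zero.2 fun h => hww (Subtype.ext h.symm))
      have h1 := hc.bd.taylor h
      rw [w.2.1, w'.2.1, sub_self, zero_sub, norm_neg, norm_mul, sq, ← mul_assoc] at h1
      have h2 := (hc.simple w w.2.1 w.2.2).trans (le_of_mul_le_mul_right h1 h0)
      rw [← inv_om_pow_add_mul w M (2 * M + 1), mul_comm] at h2
      rw [norm_sub_rev]
      exact le_of_mul_le_mul_left h2 (om_pow_pos _ _)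
    · rw [norm_sub_rev]
      exact (inv_om_pow_le_one _ _).trans h.le)
  have hk : ∀ w : Z, ∃ k : ℂ → ℂ, Differentiable ℂ k ∧ ∀ z, f z = (z - w) ^ 1 * k z :=
    fun w => (van_one hc.bd.1 w.2.1).exists_entire hc.bd.1
  choose k hk hk' using hk
  set L := K + (N + M) with hL
  let F : Z → ℂ → ℂ := fun w z =>
    ν w / (deriv f w * chi (sg w) w ^ L) * (k w z * chi (sg w) z ^ L)
  have hd : ∀ w : Z, 0 < ‖deriv f w‖ := fun w =>
    (inv_om_pow_pos _ _).trans_le (hc.simple w w.2.1 w.2.2)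
  have hx : ∀ w : Z, om w ^ L ≤ ‖chi (sg w) w ^ L‖ := fun w => chi_pow_lower _ (by simp) L
  have hF : ∀ w : Z, Bd ((om w ^ K)⁻¹) (4 * M + 2 * L) (F w) := by
    intro w
    refine (((hc.bd.quot (hk w) (hk' w)).mul ((bd_chi (sg_cases w)).pow L)).const_mul _).mono ?_
      (inv_om_pow_pos _ _).le le_rfl
    rw [mul_one, mul_one, norm_div, norm_mul,
      div_le_iff₀ (mul_pos (hd w) ((om_pow_pos _ _).trans_le (hx w)))]
    calc ‖ν w‖ ≤ om w ^ N := hν w w.2.1 w.2.2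
      _ = (om w ^ K)⁻¹ * ((om w ^ M)⁻¹ * om w ^ L) := by
          have := om_pos w
          rw [hL]
          field_simp
          ring
      _ ≤ _ := mul_le_mul_of_nonneg_left (mul_le_mul (hc.simple w w.2.1 w.2.2) (hx w)
          (om_pow_pos _ _).le (norm_nonneg _)) (inv_om_pow_pos _ _).le
  refine ⟨fun z => ∑' w, F w z, _, (Bd.tsum hF hK).mono hK' zero_le_one le_rfl,
    fun n => van_tsum hF hK (fun w => ?_), fun w hw hwa => ?_⟩
  · have hne : a n ≠ w := fun h => w.2.2 ⟨n, h⟩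
    have h1 : Van (k w) (a n) (p n) := by
      refine ((hc.van n).mul_cont (h := fun z => (z - (w : ℂ))⁻¹)
        ((continuousAt_id.sub continuousAt_const).inv₀ (sub_ne_zero.2 hne))).congr ?_
      filter_upwards [isOpen_ne.mem_nhds hne] with z hz
      have : z - (w : ℂ) ≠ 0 := sub_ne_zero.2 hz
      rw [hk' w z]
      field_simp
    exact (h1.mul_cont ((bd_chi (sg_cases w)).pow L).1.continuous.continuousAt).cont_mul
      continuousAt_const
  · beta_reduce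
    rw [tsum_eq_single (⟨w, hw, hwa⟩ : Z)]
    · have h1 := norm_pos_iff.1 (hd ⟨w, hw, hwa⟩)
      have h2 := norm_pos_iff.1 ((om_pow_pos _ _).trans_le (hx ⟨w, hw, hwa⟩))
      have h3 := quot_one (hk ⟨w, hw, hwa⟩) (hk' ⟨w, hw, hwa⟩)
      simp only [F] at h1 h2 h3 ⊢
      rw [h3]
      exact div_mul_cancel₀ _ (mul_ne_zero h1 h2)
    · intro w' hw'
      have h1 : w - w' ≠ 0 := sub_ne_zero.2 fun h => hw' (Subtype.ext h.symm)
      have h2 := hk' w' w
      rw [hw, pow_one] at h2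
      have h3 := (mul_eq_zero.1 h2.symm).resolve_left h1
      simp only [F, h3, zero_mul, mul_zero]

lemma Core.interp (hc : Core a p f M) (H : SJ a p N0) (hp : ∀ n, 1 ≤ p n) (N : ℕ)
    (lam : ℕ → ℕ → ℂ) (μ : ℂ → ℂ) (hl : ∀ n, ∀ κ < p n, ‖lam n κ‖ ≤ om (a n) ^ N)
    (hμ : ∀ w, f w = 0 → w ∉ Set.range a → ‖μ w‖ ≤ om w ^ N) :
    ∃ g, EE g ∧ (∀ n, ∀ κ < p n, iteratedDeriv κ g (a n) / (κ.factorial : ℂ) = lam n κ) ∧
      ∀ w, f w = 0 → w ∉ Set.range a → g w = μ w := by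
  obtain ⟨N1, hN1⟩ := H.grow hp N
  obtain ⟨g1, hg1, hv1⟩ := hN1 1 one_pos lam (by simpa using hl)
  obtain ⟨g2, N2, hg2, hv2, hw2⟩ := hc.fix (N + N1 + 1) (fun w => μ w - g1 w) (fun w hw hwa => by
    have h1 := hμ w hw hwa
    have h2 := hg1.2 w
    have h3 := norm_sub_le (μ w) (g1 w)
    have h4 := om_pow_mono w (Nat.le_add_right N N1)
    have h5 := om_pow_mono w (Nat.le_add_left N1 N)
    have h6 := hundred_mul_om_pow w (N + N1)
    have h7 := om_pow_pos w (N + N1)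
    linarith)
  have hb := (hg1.mono le_rfl zero_le_one (Nat.le_add_right N1 N2)).add
    (hg2.mono le_rfl zero_le_one (Nat.le_add_left N2 N1))
  refine ⟨fun z => g1 z + g2 z, hb.ee, fun n => (jets_iff (hb.1.analyticAt _) _ _).2 ?_,
    fun w hw hwa => ?_⟩
  · exact ((hv1 n).add (hv2 n)).congr' (fun z => by ring)
  · simp only [hw2 w hw hwa]
    ring

end Pool.Agent.P.MP_2fa38d_an
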