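import Mathlib

set_option autoImplicit false

open Metric Filter Topology

namespace Pool.Agent.P.MP_2fa38d_an

/-- the exponent of the weight -/
noncomputable def rho (z : ℂ) : ℝ := |z.im| + Real.log (1 + ‖z‖ ^ 2)

/-- the normalised weight -/
noncomputable def om (z : ℂ) : ℝ := 100 * Real.exp (rho z)

lemma rho_nonneg (z : ℂ) : 0 ≤ rho z := by
  unfold rho
  have : 0 ≤ Real.log (1 + ‖z‖ ^ 2) := Real.log_nonneg (by nlinarith [sq_nonneg ‖z‖])
  positivity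

lemma om_eq (z : ℂ) : om z = 100 * (Real.exp |z.im| * (1 + ‖z‖ ^ 2)) := by
  unfold om rho
  rw [Real.exp_add, Real.exp_log (by positivity)]

lemma om_ge (z : ℂ) : 100 ≤ om z := by
  unfold om
  have := Real.one_le_exp (rho_nonneg z)
  linarith

lemma om_pos (z : ℂ) : 0 < om z := by linarith [om_ge z]

lemma one_le_om (z : ℂ) : 1 ≤ om z := by linarith [om_ge z]

lemma sq_le_om (z : ℂ) : 100 * (1 + ‖z‖ ^ 2) ≤ om z := by
  rw [om_eq]
  have h1 : 1 ≤ Real.exp |z.im| := Real.one_le_exp (abs_nonneg _)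
  have h2 : 0 ≤ 1 + ‖z‖ ^ 2 := by positivity
  nlinarith

lemma exp_two_le : Real.exp 2 ≤ 8 := by
  have h := Real.exp_one_lt_d9
  have : Real.exp 2 = Real.exp 1 * Real.exp 1 := by rw [← Real.exp_add]; norm_num
  rw [this]
  have h0 := Real.exp_pos 1
  nlinarith

lemma om_shift {z w : ℂ} (h : ‖w - z‖ ≤ 2) : om w ≤ om z ^ 2 := by
  have h1 : |w.im| ≤ |z.im| + 2 := by
    have := Complex.abs_im_le_norm (w - z)
    rw [Complex.sub_im] at this
    have h3 := abs_sub_abs_le_abs_sub w.im z.im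
    linarith
  have h2 : ‖w‖ ≤ ‖z‖ + 2 := by
    have := norm_sub_norm_le w z
    linarith
  have h3 : 1 + ‖w‖ ^ 2 ≤ 9 * (1 + ‖z‖ ^ 2) := by
    have := norm_nonneg w
    have := norm_nonneg z
    nlinarith [sq_nonneg (‖z‖ - 2)]
  have h4 : Real.exp |w.im| ≤ 8 * Real.exp |z.im| := by
    calc Real.exp |w.im| ≤ Real.exp (|z.im| + 2) := Real.exp_le_exp.2 h1
      _ = Real.exp |z.im| * Real.exp 2 := Real.exp_add _ _
      _ ≤ 8 * Real.exp |z.im| := by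
        have := exp_two_le
        have := Real.exp_pos |z.im|
        nlinarith
  have h5 : om w ≤ 72 * om z := by
    rw [om_eq, om_eq]
    have := Real.exp_pos |z.im|
    have := Real.exp_pos |w.im|
    have h6 : Real.exp |w.im| * (1 + ‖w‖ ^ 2) ≤ (8 * Real.exp |z.im|) * (9 * (1 + ‖z‖ ^ 2)) :=
      mul_le_mul h4 h3 (by positivity) (by positivity)
    nlinarith
  have := om_ge z
  nlinarith

lemma om_pow_mono (z : ℂ) {m n : ℕ} (h : m ≤ n) : om z ^ m ≤ om z ^ n :=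
  pow_le_pow_right₀ (one_le_om z) h

lemma om_pow_pos (z : ℂ) (n : ℕ) : 0 < om z ^ n := pow_pos (om_pos z) n

lemma one_le_om_pow (z : ℂ) (n : ℕ) : 1 ≤ om z ^ n := one_le_pow₀ (one_le_om z)

lemma om_pow_shift {z w : ℂ} (h : ‖w - z‖ ≤ 2) (n : ℕ) : om w ^ n ≤ om z ^ (2 * n) := by
  rw [pow_mul]
  exact pow_le_pow_left₀ (om_pos w).le (om_shift h) n

lemma hundred_mul_om_pow (z : ℂ) (n : ℕ) : 100 * om z ^ n ≤ om z ^ (n + 1) := by
  rw [pow_succ]
  have := om_ge z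
  have := om_pow_pos z n
  nlinarith

lemma norm_sub_le_om (z w : ℂ) : ‖z - w‖ ≤ om z * om w := by
  have h1 := sq_le_om z
  have h2 := sq_le_om w
  have h3 := norm_sub_le z w
  have h4 := om_ge z
  have h5 := om_ge w
  have h6 : ‖z‖ ≤ om z / 100 := by nlinarith [sq_nonneg (‖z‖ - 1), norm_nonneg z]
  have h7 : ‖w‖ ≤ om w / 100 := by nlinarith [sq_nonneg (‖w‖ - 1), norm_nonneg w]
  nlinarith

lemma exists_le_om_pow (C : ℝ) : ∃ k : ℕ, ∀ z, C ≤ om z ^ k := by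
  obtain ⟨k, hk⟩ := pow_unbounded_of_one_lt C (show (1 : ℝ) < 100 by norm_num)
  exact ⟨k, fun z => hk.le.trans (pow_le_pow_left₀ (by norm_num) (om_ge z) k)⟩

lemma continuous_om : Continuous om := by
  have : om = fun z : ℂ => 100 * (Real.exp |z.im| * (1 + ‖z‖ ^ 2)) := funext om_eq
  rw [this]
  fun_prop

lemma om_le_on_ball (R : ℝ) : ∃ M : ℝ, ∀ z ∈ closedBall (0 : ℂ) R, om z ≤ M := by
  obtain ⟨M, hM⟩ := (isCompact_closedBall (0 : ℂ) R).bddAbove_image continuous_om.continuousOn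
  exact ⟨M, fun z hz => hM ⟨z, hz, rfl⟩⟩

/-- entire with growth bound -/
def Bd (C : ℝ) (N : ℕ) (g : ℂ → ℂ) : Prop :=
  Differentiable ℂ g ∧ ∀ z, ‖g z‖ ≤ C * om z ^ N

/-- the algebra -/
def EE (f : ℂ → ℂ) : Prop :=
  Differentiable ℂ f ∧ ∃ A > (0:ℝ), ∃ B > (0:ℝ), ∀ z : ℂ, ‖f z‖ ≤ A * Real.exp (B * rho z)

lemma exp_le_om (A B : ℝ) : ∃ N : ℕ, ∀ z, A * Real.exp (B * rho z) ≤ om z ^ N := by
  obtain ⟨k, hk⟩ := exists_le_om_pow A
  obtain ⟨m, hm⟩ := exists_nat_ge B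
  refine ⟨k + m, fun z => ?_⟩
  rw [pow_add]
  refine mul_le_mul (hk z) ?_ (Real.exp_pos _).le (om_pow_pos z k).le
  calc Real.exp (B * rho z) ≤ Real.exp (m * rho z) :=
        Real.exp_le_exp.2 (mul_le_mul_of_nonneg_right hm (rho_nonneg z))
    _ = Real.exp (rho z) ^ m := Real.exp_nat_mul _ _
    _ ≤ om z ^ m := by
        refine pow_le_pow_left₀ (Real.exp_pos _).le ?_ m
        unfold om
        have := Real.exp_pos (rho z)
        linarith

lemma om_pow_eq (z : ℂ) (N : ℕ) : om z ^ N = 100 ^ N * Real.exp (N * rho z) := by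
  unfold om
  rw [mul_pow, Real.exp_nat_mul]

lemma EE.bd {f : ℂ → ℂ} (h : EE f) : ∃ N, Bd 1 N f := by
  obtain ⟨hd, A, -, B, -, hb⟩ := h
  obtain ⟨N, hN⟩ := exp_le_om A B
  exact ⟨N, hd, fun z => by rw [one_mul]; exact (hb z).trans (hN z)⟩

lemma Bd.mono {C C' : ℝ} {N N' : ℕ} {g : ℂ → ℂ} (h : Bd C N g) (hC : C ≤ C') (hC' : 0 ≤ C')
    (hN : N ≤ N') : Bd C' N' g :=
  ⟨h.1, fun z => (h.2 z).trans
    (mul_le_mul hC (om_pow_mono z hN) (om_pow_pos z N).le hC')⟩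

lemma Bd.ee {C : ℝ} {N : ℕ} {f : ℂ → ℂ} (h : Bd C N f) : EE f := by
  have h1 : Bd (|C| + 1) (N + 1) f :=
    h.mono (by linarith [le_abs_self C]) (by positivity) (Nat.le_succ N)
  refine ⟨h.1, (|C| + 1) * 100 ^ (N + 1), by positivity, ((N + 1 : ℕ) : ℝ), by positivity,
    fun z => ?_⟩
  have := h1.2 z
  rw [om_pow_eq] at this
  rw [mul_assoc]
  exact this

lemma Bd.mul {C C' : ℝ} {N N' : ℕ} {g g' : ℂ → ℂ} (h : Bd C N g) (h' : Bd C' N' g') :
    Bd (C * C') (N + N') (fun z => g z * g' z) := by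
  refine ⟨h.1.mul h'.1, fun z => ?_⟩
  rw [norm_mul, pow_add]
  calc ‖g z‖ * ‖g' z‖ ≤ (C * om z ^ N) * (C' * om z ^ N') :=
        mul_le_mul (h.2 z) (h'.2 z) (norm_nonneg _) ((norm_nonneg _).trans (h.2 z))
    _ = _ := by ring

lemma Bd.add {C C' : ℝ} {N : ℕ} {g g' : ℂ → ℂ} (h : Bd C N g) (h' : Bd C' N g') :
    Bd (C + C') N (fun z => g z + g' z) := by
  refine ⟨h.1.add h'.1, fun z => ?_⟩
  have := norm_add_le (g z) (g' z)
  have := h.2 z
  have := h'.2 z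
  linarith

lemma Bd.sub {C C' : ℝ} {N : ℕ} {g g' : ℂ → ℂ} (h : Bd C N g) (h' : Bd C' N g') :
    Bd (C + C') N (fun z => g z - g' z) := by
  refine ⟨h.1.sub h'.1, fun z => ?_⟩
  have := norm_sub_le (g z) (g' z)
  have := h.2 z
  have := h'.2 z
  linarith

lemma Bd.const_mul {C : ℝ} {N : ℕ} {g : ℂ → ℂ} (h : Bd C N g) (c : ℂ) :
    Bd (‖c‖ * C) N (fun z => c * g z) := by
  refine ⟨h.1.const_mul c, fun z => ?_⟩
  rw [norm_mul, mul_assoc]
  exact mul_le_mul_of_nonneg_left (h.2 z) (norm_nonneg c)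

lemma Bd.nonneg {C : ℝ} {N : ℕ} {g : ℂ → ℂ} (h : Bd C N g) : 0 ≤ C := by
  have h1 := (norm_nonneg _).trans (h.2 0)
  exact nonneg_of_mul_nonneg_left h1 (om_pow_pos 0 N)

lemma bd_const (c : ℂ) : Bd ‖c‖ 0 (fun _ => c) :=
  ⟨differentiable_const c, fun z => by simp⟩

lemma bd_sub_const (a : ℂ) : Bd (om a) 1 (fun z => z - a) :=
  ⟨by fun_prop, fun z => by rw [pow_one, mul_comm]; exact norm_sub_le_om z a⟩

lemma Bd.absorb {C : ℝ} {N : ℕ} {g : ℂ → ℂ} (h : Bd C N g) (hC : C ≤ 100) : Bd 1 (N + 1) g := by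
  refine ⟨h.1, fun z => (h.2 z).trans ?_⟩
  have := hundred_mul_om_pow z N
  have := om_pow_pos z N
  nlinarith

lemma Bd.near {C : ℝ} {N : ℕ} {g : ℂ → ℂ} (h : Bd C N g) {z w : ℂ} (hw : ‖w - z‖ ≤ 2) :
    ‖g w‖ ≤ C * om z ^ (2 * N) :=
  (h.2 w).trans (mul_le_mul_of_nonneg_left (om_pow_shift hw N) h.nonneg)

lemma Bd.summable {ι : Type*} {u : ι → ℝ} {N : ℕ} {F : ι → ℂ → ℂ} (h : ∀ i, Bd (u i) N (F i))
    (hu : Summable u) (z : ℂ) : Summable (fun i => F i z) :=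
  Summable.of_norm_bounded (hu.mul_right (om z ^ N)) (fun i => (h i).2 z)

lemma Bd.tsum {ι : Type*} {u : ι → ℝ} {N : ℕ} {F : ι → ℂ → ℂ} (h : ∀ i, Bd (u i) N (F i))
    (hu : Summable u) : Bd (∑' i, u i) N (fun z => ∑' i, F i z) := by
  refine ⟨fun z => ?_, fun z => ?_⟩
  · have hd : DifferentiableOn ℂ (fun w => ∑' i, F i w) (ball z 1) := by
      refine Complex.differentiableOn_tsum_of_summable_norm (hu.mul_right (om z ^ (2 * N)))
        (fun i => (h i).1.differentiableOn) isOpen_ball (fun i w hw => (h i).near ?_)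
      rw [mem_ball_iff_norm] at hw
      linarith
    exact hd.differentiableAt (ball_mem_nhds z one_pos)
  · rw [← tsum_mul_right]
    exact tsum_of_norm_bounded (hu.mul_right _).hasSum (fun i => (h i).2 z)

lemma lower_of_om (N : ℕ) : ∃ ε > (0:ℝ), ∃ c > (0:ℝ), ∀ z,
    ε * Real.exp (-(c * rho z)) ≤ (om z ^ N)⁻¹ := by
  refine ⟨(100 ^ (N + 1))⁻¹, by positivity, ((N + 1 : ℕ) : ℝ), by positivity, fun z => ?_⟩
  rw [Real.exp_neg, ← mul_inv, ← om_pow_eq]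
  exact inv_anti₀ (om_pow_pos z N) (om_pow_mono z (Nat.le_succ N))

end Pool.Agent.P.MP_2fa38d_an
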