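import Pool.Agent.P.MP_2fa38d_an.Om

set_option autoImplicit false

open Metric Filter Topology Asymptotics

namespace Pool.Agent.P.MP_2fa38d_an

/-- vanishing to order `p` at `a` -/
def Van (h : ℂ → ℂ) (a : ℂ) (p : ℕ) : Prop := h =O[𝓝 a] fun z => (z - a) ^ p

lemma van_pow (a : ℂ) (p : ℕ) : Van (fun z => (z - a) ^ p) a p := isBigO_refl _ _

lemma Van.add {g h : ℂ → ℂ} {a : ℂ} {p : ℕ} (hg : Van g a p) (hh : Van h a p) :
    Van (fun z => g z + h z) a p := IsBigO.add hg hh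

lemma Van.sub {g h : ℂ → ℂ} {a : ℂ} {p : ℕ} (hg : Van g a p) (hh : Van h a p) :
    Van (fun z => g z - h z) a p := IsBigO.sub hg hh

lemma Van.mul {g h : ℂ → ℂ} {a : ℂ} {p q : ℕ} (hg : Van g a p) (hh : Van h a q) :
    Van (fun z => g z * h z) a (p + q) := by
  have := IsBigO.mul hg hh
  unfold Van
  simpa only [pow_add] using this

lemma van_zero {g : ℂ → ℂ} {a : ℂ} (hg : ContinuousAt g a) : Van g a 0 := by
  unfold Van
  simp only [pow_zero]
  exact hg.tendsto.isBigO_one ℂ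

lemma Van.mul_cont {g h : ℂ → ℂ} {a : ℂ} {p : ℕ} (hg : Van g a p) (hh : ContinuousAt h a) :
    Van (fun z => g z * h z) a p := by
  simpa using hg.mul (van_zero hh)

lemma Van.cont_mul {g h : ℂ → ℂ} {a : ℂ} {p : ℕ} (hg : Van g a p) (hh : ContinuousAt h a) :
    Van (fun z => h z * g z) a p := by
  simpa using (van_zero hh).mul hg

lemma Van.congr {g h : ℂ → ℂ} {a : ℂ} {p : ℕ} (hg : Van g a p) (hh : g =ᶠ[𝓝 a] h) :
    Van h a p := IsBigO.congr' hg hh EventuallyEq.rfl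

lemma Van.congr' {g h : ℂ → ℂ} {a : ℂ} {p : ℕ} (hg : Van g a p) (hh : ∀ z, g z = h z) :
    Van h a p := hg.congr (Eventually.of_forall hh)

lemma Van.mono {g : ℂ → ℂ} {a : ℂ} {p q : ℕ} (hg : Van g a p) (hq : q ≤ p) : Van g a q := by
  obtain ⟨r, rfl⟩ := Nat.exists_eq_add_of_le hq
  refine IsBigO.trans hg ?_
  have := (van_pow a q).mul_cont (h := fun z => (z - a) ^ r) (by fun_prop)
  unfold Van at this
  simpa only [pow_add] using this

lemma van_zero_fun (a : ℂ) (p : ℕ) : Van (fun _ => 0) a p := isBigO_zero _ _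

lemma van_of_bound {g : ℂ → ℂ} {a : ℂ} {p : ℕ} {M : ℝ}
    (h : ∀ z ∈ ball a 1, ‖g z‖ ≤ M * ‖z - a‖ ^ p) : Van g a p := by
  refine IsBigO.of_bound M ?_
  filter_upwards [ball_mem_nhds a one_pos] with z hz
  rw [norm_pow]
  exact h z hz

lemma Van.order {h : ℂ → ℂ} {a : ℂ} {p : ℕ} (ha : AnalyticAt ℂ h a) (hv : Van h a p) :
    (p : ℕ∞) ≤ analyticOrderAt h a := by
  by_contra hlt
  rw [not_le] at hlt
  obtain ⟨m, hm⟩ := ENat.ne_top_iff_exists.1 (ne_top_of_lt hlt)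
  rw [← hm, Nat.cast_lt] at hlt
  obtain ⟨g, hg, hg0, hgf⟩ := ha.analyticOrderAt_eq_natCast.1 hm.symm
  obtain ⟨C, hC⟩ := hv.bound
  have h1 : Tendsto (fun z => ‖g z‖) (𝓝[≠] a) (𝓝 ‖g a‖) :=
    (hg.continuousAt.norm.tendsto).mono_left nhdsWithin_le_nhds
  have h2 : Tendsto (fun z => C * ‖z - a‖ ^ (p - m)) (𝓝[≠] a) (𝓝 0) := by
    have : ContinuousAt (fun z => C * ‖z - a‖ ^ (p - m)) a := by fun_prop
    have h3 := this.tendsto.mono_left (nhdsWithin_le_nhds (s := {a}ᶜ))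
    simpa [Nat.sub_ne_zero_of_lt hlt] using h3
  have h3 : ‖g a‖ ≤ 0 := by
    refine le_of_tendsto_of_tendsto h1 h2 ?_
    filter_upwards [self_mem_nhdsWithin, hgf.filter_mono nhdsWithin_le_nhds,
      hC.filter_mono nhdsWithin_le_nhds] with z hz h4 h5
    have hz' : 0 < ‖z - a‖ := norm_pos_iff.2 (sub_ne_zero.2 hz)
    rw [h4, smul_eq_mul, norm_mul, norm_pow, norm_pow] at h5
    have h6 : ‖z - a‖ ^ p = ‖z - a‖ ^ m * ‖z - a‖ ^ (p - m) := by
      rw [← pow_add]; congr 1; omega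
    rw [h6] at h5
    have h7 := pow_pos hz' m
    refine le_of_mul_le_mul_left ?_ h7
    linarith
  exact hg0 (norm_le_zero_iff.1 h3)

lemma van_of_order {h : ℂ → ℂ} {a : ℂ} {p : ℕ} (ha : AnalyticAt ℂ h a)
    (hv : (p : ℕ∞) ≤ analyticOrderAt h a) : Van h a p := by
  obtain ⟨g, hg, hgf⟩ := (natCast_le_analyticOrderAt ha).1 hv
  refine ((van_pow a p).mul_cont hg.continuousAt).congr ?_
  filter_upwards [hgf] with z hz
  rw [hz, smul_eq_mul]

lemma van_iff {h : ℂ → ℂ} {a : ℂ} {p : ℕ} (ha : AnalyticAt ℂ h a) :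
    Van h a p ↔ ∀ i < p, iteratedDeriv i h a = 0 := by
  rw [← natCast_le_analyticOrderAt_iff_iteratedDeriv_eq_zero ha]
  exact ⟨fun hv => hv.order ha, van_of_order ha⟩

lemma Van.apply_eq_zero {h : ℂ → ℂ} {a : ℂ} {p : ℕ} (hv : Van h a p) (hp : 1 ≤ p) : h a = 0 := by
  obtain ⟨C, hC⟩ := hv.bound
  have := hC.self_of_nhds
  simpa [show p ≠ 0 by omega] using this

lemma van_one {h : ℂ → ℂ} {a : ℂ} (hd : Differentiable ℂ h) (h0 : h a = 0) : Van h a 1 := by
  rw [van_iff (hd.analyticAt a)]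
  intro i hi
  obtain rfl : i = 0 := by omega
  simpa using h0

lemma Van.exists_entire {h : ℂ → ℂ} {a : ℂ} {p : ℕ} (hd : Differentiable ℂ h) (hv : Van h a p) :
    ∃ k : ℂ → ℂ, Differentiable ℂ k ∧ ∀ z, h z = (z - a) ^ p * k z := by
  classical
  obtain ⟨g, hg, hgf⟩ := (natCast_le_analyticOrderAt (hd.analyticAt a)).1 (hv.order (hd.analyticAt a))
  refine ⟨fun z => if z = a then g a else h z / (z - a) ^ p, fun z => ?_, fun z => ?_⟩
  · by_cases hz : z = a
    · subst hz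
      refine hg.differentiableAt.congr_of_eventuallyEq ?_
      filter_upwards [hgf] with w hw
      by_cases hwz : w = z
      · simp [hwz]
      · have : (w - z) ^ p ≠ 0 := pow_ne_zero _ (sub_ne_zero.2 hwz)
        simp only [hwz, if_false, hw, smul_eq_mul]
        field_simp
    · have h1 : DifferentiableAt ℂ (fun w => h w / (w - a) ^ p) z :=
        (hd z).div (by fun_prop) (pow_ne_zero _ (sub_ne_zero.2 hz))
      refine h1.congr_of_eventuallyEq ?_
      filter_upwards [isOpen_ne.mem_nhds hz] with w hw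
      simp only [hw, if_false]
  · by_cases hz : z = a
    · subst hz
      simpa using hgf.self_of_nhds
    · have : (z - a) ^ p ≠ 0 := pow_ne_zero _ (sub_ne_zero.2 hz)
      simp only [hz, if_false]
      field_simp

lemma max_ball {k : ℂ → ℂ} (hk : Differentiable ℂ k) {a : ℂ} {r M : ℝ} (hr : 0 ≤ r)
    (hM : ∀ z ∈ sphere a r, ‖k z‖ ≤ M) {z : ℂ} (hz : z ∈ closedBall a r) : ‖k z‖ ≤ M := by
  rcases hr.eq_or_lt with rfl | hr
  · apply hM
    simpa using hz
  · refine Complex.norm_le_of_forall_mem_frontier_norm_le (isBounded_ball (x := a) (r := r))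
      hk.diffContOnCl ?_ ?_
    · rwa [frontier_ball a hr.ne']
    · rwa [closure_ball a hr.ne']

lemma quot_le {h k : ℂ → ℂ} {a : ℂ} {p : ℕ} (hk : Differentiable ℂ k)
    (hh : ∀ z, h z = (z - a) ^ p * k z) {r M : ℝ} (hr : 0 < r)
    (hM : ∀ z ∈ sphere a r, ‖h z‖ ≤ M) {z : ℂ} (hz : z ∈ closedBall a r) :
    ‖k z‖ ≤ M / r ^ p := by
  refine max_ball hk hr.le (fun w hw => ?_) hz
  have h1 := hM w hw
  rw [hh, norm_mul, norm_pow, mem_sphere_iff_norm.1 hw] at h1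
  rw [le_div_iff₀ (pow_pos hr p)]
  linarith

lemma Van.schwarz {h : ℂ → ℂ} {a : ℂ} {p : ℕ} (hd : Differentiable ℂ h) (hv : Van h a p)
    {M : ℝ} (hM : ∀ z ∈ sphere a 1, ‖h z‖ ≤ M) {z : ℂ} (hz : ‖z - a‖ ≤ 1) :
    ‖h z‖ ≤ M * ‖z - a‖ ^ p := by
  obtain ⟨k, hk, hh⟩ := hv.exists_entire hd
  have := quot_le hk hh one_pos hM (mem_closedBall_iff_norm.2 hz)
  rw [hh, norm_mul, norm_pow, mul_comm]
  simp only [one_pow, div_one] at this
  exact mul_le_mul_of_nonneg_right this (by positivity)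

lemma Bd.quot {C : ℝ} {N : ℕ} {h k : ℂ → ℂ} {a : ℂ} {p : ℕ} (hb : Bd C N h)
    (hk : Differentiable ℂ k) (hh : ∀ z, h z = (z - a) ^ p * k z) : Bd C (4 * N) k := by
  refine ⟨hk, fun z => ?_⟩
  have hC := hb.nonneg
  by_cases hz : ‖z - a‖ ≤ 1
  · have h1 := quot_le hk hh one_pos (M := C * om z ^ (2 * N)) (fun w hw => hb.near (by
      have := mem_sphere_iff_norm.1 hw
      have h2 : w - z = (w - a) - (z - a) := by ring
      rw [h2]
      linarith [norm_sub_le (w - a) (z - a)])) (mem_closedBall_iff_norm.2 hz)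
    simp only [one_pow, div_one] at h1
    exact h1.trans (mul_le_mul_of_nonneg_left (om_pow_mono z (by omega)) hC)
  · rw [not_le] at hz
    have h1 := hb.2 z
    rw [hh, norm_mul, norm_pow] at h1
    have h2 : 1 ≤ ‖z - a‖ ^ p := one_le_pow₀ hz.le
    have h3 : ‖k z‖ ≤ C * om z ^ N := by nlinarith [norm_nonneg (k z)]
    exact h3.trans (mul_le_mul_of_nonneg_left (om_pow_mono z (by omega)) hC)

lemma Bd.schwarz {C : ℝ} {N : ℕ} {h : ℂ → ℂ} {a : ℂ} {p : ℕ} (hb : Bd C N h) (hv : Van h a p)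
    {z : ℂ} (hz : ‖z - a‖ ≤ 1) : ‖h z‖ ≤ C * om a ^ (2 * N) * ‖z - a‖ ^ p :=
  hv.schwarz hb.1 (fun w hw => hb.near (by rw [mem_sphere_iff_norm.1 hw]; norm_num)) hz

lemma van_tsum {ι : Type*} {u : ι → ℝ} {N : ℕ} {F : ι → ℂ → ℂ} (h : ∀ i, Bd (u i) N (F i))
    (hu : Summable u) {a : ℂ} {p : ℕ} (hv : ∀ i, Van (F i) a p) :
    Van (fun z => ∑' i, F i z) a p := by
  refine van_of_bound (M := (∑' i, u i) * om a ^ (2 * N)) (fun z hz => ?_)
  rw [mul_assoc, ← tsum_mul_right]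
  refine tsum_of_norm_bounded (hu.mul_right _).hasSum (fun i => ?_)
  rw [← mul_assoc]
  exact (h i).schwarz (hv i) (mem_ball_iff_norm.1 hz).le

/-- the jet polynomial -/
noncomputable def jp (lam : ℕ → ℂ) (p : ℕ) (a : ℂ) (z : ℂ) : ℂ :=
  ∑ κ ∈ Finset.range p, lam κ * (z - a) ^ κ

lemma differentiable_jp (lam : ℕ → ℂ) (p : ℕ) (a : ℂ) : Differentiable ℂ (jp lam p a) := by
  unfold jp
  fun_prop

lemma iteratedDeriv_sub_pow (a : ℂ) (n m : ℕ) :
    iteratedDeriv n (fun z => (z - a) ^ m) a = if n = m then (m.factorial : ℂ) else 0 := by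
  have := iteratedDeriv_comp_sub_const (n := n) (f := fun z : ℂ => z ^ m) (s := a)
  rw [this]
  simp only [sub_self]
  rw [iteratedDeriv_fun_pow_zero]
  split_ifs <;> simp

lemma iteratedDeriv_jp (lam : ℕ → ℂ) {p κ : ℕ} (a : ℂ) (hκ : κ < p) :
    iteratedDeriv κ (jp lam p a) a = κ.factorial * lam κ := by
  unfold jp
  rw [iteratedDeriv_fun_sum (fun i _ => by fun_prop)]
  simp only [iteratedDeriv_const_mul_field, iteratedDeriv_sub_pow, mul_ite, mul_zero]
  rw [Finset.sum_ite_eq, if_pos (Finset.mem_range.2 hκ), mul_comm]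

lemma jets_iff {g : ℂ → ℂ} {a : ℂ} (hg : AnalyticAt ℂ g a) (lam : ℕ → ℂ) (p : ℕ) :
    (∀ κ < p, iteratedDeriv κ g a / (κ.factorial : ℂ) = lam κ) ↔
      Van (fun z => g z - jp lam p a z) a p := by
  have hj := (differentiable_jp lam p a).analyticAt a
  rw [van_iff (hg.fun_sub hj)]
  refine forall₂_congr (fun κ hκ => ?_)
  rw [iteratedDeriv_fun_sub hg.contDiffAt hj.contDiffAt, iteratedDeriv_jp lam a hκ, sub_eq_zero,
    div_eq_iff (by exact_mod_cast κ.factorial_ne_zero), mul_comm]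

lemma taylor_two {f : ℂ → ℂ} (hf : Differentiable ℂ f) {z : ℂ} {M : ℝ}
    (hM : ∀ w ∈ closedBall z 1, ‖f w‖ ≤ M) {w : ℂ} (hw : ‖w - z‖ ≤ 1) :
    ‖f w - f z - deriv f z * (w - z)‖ ≤ 3 * M * ‖w - z‖ ^ 2 := by
  have hd : ‖deriv f z‖ ≤ M := by
    have := Complex.norm_deriv_le_of_forall_mem_sphere_norm_le (c := z) one_pos
      hf.diffContOnCl (fun w hw => hM w (sphere_subset_closedBall hw))
    simpa using this
  have hv : Van (fun w => f w - jp (fun κ => iteratedDeriv κ f z / κ.factorial) 2 z w) z 2 :=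
    (jets_iff (hf.analyticAt z) _ 2).1 (fun _ _ => rfl)
  have hv' : Van (fun w => f w - f z - deriv f z * (w - z)) z 2 := by
    refine hv.congr' (fun w => ?_)
    simp [jp, Finset.sum_range_succ]
    ring
  refine hv'.schwarz (by fun_prop) (fun w hw => ?_) hw
  have h1 := hM w (sphere_subset_closedBall hw)
  have h2 := hM z (mem_closedBall_self zero_le_one)
  have h3 : ‖deriv f z * (w - z)‖ ≤ M := by
    rw [norm_mul, mem_sphere_iff_norm.1 hw, mul_one]; exact hd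
  have h4 := norm_sub_le (f w - f z) (deriv f z * (w - z))
  have h5 := norm_sub_le (f w) (f z)
  linarith

lemma Bd.taylor {N : ℕ} {f : ℂ → ℂ} (hf : Bd 1 N f) {z w : ℂ} (hw : ‖w - z‖ ≤ 1) :
    ‖f w - f z - deriv f z * (w - z)‖ ≤ om z ^ (2 * N + 1) * ‖w - z‖ ^ 2 := by
  have := taylor_two hf.1 (M := om z ^ (2 * N)) (fun w hw => by
    have h := hf.near (z := z) (w := w) (by linarith [mem_closedBall_iff_norm.1 hw])
    rwa [one_mul] at h) hw
  refine this.trans (mul_le_mul_of_nonneg_right ?_ (by positivity))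
  have := hundred_mul_om_pow z (2 * N)
  have := om_pow_pos z (2 * N)
  linarith

end Pool.Agent.P.MP_2fa38d_an
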